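import Pool.Agent.K1H71.AS.Red

/-!
# From a pair of subdigraphs to a satisfying assignment
-/

namespace Pool.Agent.K1H71.AS

open Relation Finset

variable {n m : ℕ} {lit : Fin m → Fin 3 → Bool × Fin n}

theorem Dr_to_s {v : Nd n m} (h : Dr lit v .s) : v = .t ∨ v = .a (Fin.last n) := by
  cases v with
  | s => simp [Dr] at h
  | w => simp [Dr, outL] at h
  | t => exact Or.inl rfl
  | a i =>
    right
    simp only [Dr, reduceCtorEq, if_false, outL] at h
    split_ifs at h with h1
    · simp at h
    · congr 1
      ext
      have := i.2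
      simp
      omega
  | q x c =>
    cases c with
    | false => simp [Dr, outL] at h
    | true =>
      exfalso
      simp only [Dr, reduceCtorEq, if_false, outL, List.mem_cons, List.not_mem_nil, or_false,
        false_or] at h
      rcases x with ⟨i, b, j⟩ | ⟨j, p⟩
      · simp only [nxt] at h
        split_ifs at h with h1
        · generalize occ lit ⟨j, h1⟩ (b, i) = o at h
          cases o <;> simp at h
      · simp [nxt] at h

theorem nxt_cases (x : Ps n m) : (∃ y, nxt lit x = .q y false) ∨ ∃ i : Fin n, nxt lit x = .a i.succ := by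
  rcases x with ⟨i, b, j⟩ | ⟨j, p⟩
  · simp only [nxt]
    split_ifs with h1
    · generalize occ lit ⟨j, h1⟩ (b, i) = o
      cases o with
      | none => exact Or.inl ⟨_, rfl⟩
      | some p => exact Or.inl ⟨_, rfl⟩
    · exact Or.inr ⟨_, rfl⟩
  · exact Or.inl ⟨_, rfl⟩

theorem Dr_to_t {v : Nd n m} (h : Dr lit v .t) : v = .s ∨ v = .w := by
  cases v with
  | s => exact Or.inl rfl
  | w => exact Or.inr rfl
  | t => simp [Dr, outL] at h
  | a i =>
    simp only [Dr, reduceCtorEq, if_false, outL] at h
    split_ifs at h <;> simp at h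
  | q x c =>
    cases c with
    | false => simp [Dr, outL] at h
    | true =>
      exfalso
      simp only [Dr, reduceCtorEq, if_false, outL, List.mem_cons, List.not_mem_nil, or_false,
        false_or] at h
      rcases nxt_cases (lit := lit) x with ⟨y, hy⟩ | ⟨y, hy⟩ <;> rw [hy] at h <;> simp at h

theorem Dr_to_w {v : Nd n m} (h : Dr lit v .w) : v = .s ∨ v = .t := by
  cases v with
  | s => exact Or.inl rfl
  | w => simp [Dr, outL] at h
  | t => exact Or.inr rfl
  | a i =>
    simp only [Dr, reduceCtorEq, if_false, outL] at h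
    split_ifs at h <;> simp at h
  | q x c =>
    cases c with
    | false => simp [Dr, outL] at h
    | true =>
      exfalso
      simp only [Dr, reduceCtorEq, if_false, outL, List.mem_cons, List.not_mem_nil, or_false,
        false_or] at h
      rcases nxt_cases (lit := lit) x with ⟨y, hy⟩ | ⟨y, hy⟩ <;> rw [hy] at h <;> simp at h

theorem Dr_to_qt {v : Nd n m} {y : Ps n m} (h : Dr lit v (.q y true)) :
    v = .s ∨ v = .q y false ∨ v = .q (sg y) true := by
  cases v with
  | s => exact Or.inl rfl
  | w => simp [Dr, outL] at h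
  | t => simp [Dr, outL] at h
  | a i =>
    simp only [Dr, reduceCtorEq, if_false, outL] at h
    split_ifs at h <;> simp at h
  | q x c =>
    cases c with
    | false =>
      simp [Dr, outL] at h
      rw [h]; simp
    | true =>
      simp only [Dr, reduceCtorEq, if_false, outL, List.mem_cons, List.not_mem_nil, or_false,
        Nd.q.injEq, and_true] at h
      rcases h with h | h
      · right; right
        rw [h, sg_sr]
      · rcases nxt_cases (lit := lit) x with ⟨z, hz⟩ | ⟨z, hz⟩ <;> rw [hz] at h <;> simp at h

/-- `f` leaves a set -/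
theorem not_closed {V : Type} {A2 : V → V → Prop} {f : V → V} (hf : ∀ u v, A2 u v ↔ f u = v)
    (hs : Strong A2) (S : Set V) (x y : V) (hx : x ∈ S) (hy : y ∉ S) : ∃ z ∈ S, f z ∉ S := by
  by_contra hcon
  push Not at hcon
  apply hy
  have := hs x y
  clear hy
  induction this with
  | refl => exact hx
  | tail _ h ih =>
    rw [hf] at h
    rw [← h]
    exact hcon _ ih

/-- The facts about the second subdigraph. -/
structure Cyc (lit : Fin m → Fin 3 → Bool × Fin n) (f : Nd n m → Nd n m) : Prop where
  bij : Function.Bijective f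
  arc : ∀ u, Dr lit u (f u)
  conn : ∀ (S : Set (Nd n m)) (x y : Nd n m), x ∈ S → y ∉ S → ∃ z ∈ S, f z ∉ S
  fs : f .s = .w

theorem exists_cyc (h : HasPair (Dr lit)) : ∃ f, Cyc lit f := by
  classical
  obtain ⟨A1, A2, h1, h2, hd, ha, hs⟩ := h
  obtain ⟨f, hf, hiff⟩ := tight (card_arcs lit) h1 h2 hd ha hs
  have hc := connected_of_antistrong ha
  have harc : ∀ u, Dr lit u (f u) := fun u => h2 _ _ ((hiff _ _).2 rfl)
  have hnc := not_closed hiff hs
  have hA1 : ∀ u, ¬ A1 u (f u) := fun u h => hd _ _ ⟨h, (hiff _ _).2 rfl⟩
  have hfe : ∀ i, f (.a i) = .s ∨ f (.a i) = .a 0 ∨ (i : ℕ) < n := by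
    intro i
    have := harc (.a i)
    simp only [Dr, reduceCtorEq, if_false, outL] at this
    split_ifs at this with h3
    · exact Or.inr (Or.inr h3)
    · simp at this
      tauto
  have hfl : f (.a (Fin.last n)) = .s ∨ f (.a (Fin.last n)) = .a 0 := by
    rcases hfe (Fin.last n) with h3 | h3 | h3
    · exact Or.inl h3
    · exact Or.inr h3
    · simp at h3
  -- (i)
  have hts : f .t ≠ .s := by
    intro hts
    have h5 : f (.a (Fin.last n)) = .a 0 := by
      rcases hfl with h3 | h3
      · have := hf.1 (h3.trans hts.symm)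
        simp at this
      · exact h3
    have := closed_univ hc {.inr .s, .inl (.a (Fin.last n))} (.inr .s) (Or.inl rfl) (by
      rintro x (rfl | rfl) y hy
      · rcases y with v | v
        · right
          have h3 : A1 v .s := hy
          rcases Dr_to_s (h1 _ _ h3) with rfl | rfl
          · exact absurd (hts ▸ h3) (hA1 _)
          · rfl
        · exact absurd hy id
      · rcases y with v | v
        · exact absurd hy id
        · left
          have h3 : A1 (.a (Fin.last n)) v := hy
          have h4 := h1 _ _ h3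
          simp only [Dr, reduceCtorEq, if_false, outL, Fin.val_last, lt_self_iff_false, dite_false,
            List.mem_cons, List.not_mem_nil, or_false] at h4
          rcases h4 with rfl | rfl
          · rfl
          · exact absurd (h5 ▸ h3) (hA1 _)) (.inl .s)
    simp at this
  have has : f (.a (Fin.last n)) = .s := by
    obtain ⟨v, hv⟩ := hf.2 .s
    rcases Dr_to_s (hv ▸ harc v) with rfl | rfl
    · exact absurd hv hts
    · exact hv
  -- (iii)
  have hst : f .s ≠ .t := by
    intro hst
    have h5 : f .w = .a 0 := by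
      have h6 := harc .w
      simp [Dr, outL] at h6
      rcases h6 with h6 | h6
      · have := hf.1 (h6.trans hst.symm)
        simp at this
      · exact h6
    have := closed_univ hc {.inr .t, .inl .w} (.inr .t) (Or.inl rfl) (by
      rintro x (rfl | rfl) y hy
      · rcases y with v | v
        · right
          have h3 : A1 v .t := hy
          rcases Dr_to_t (h1 _ _ h3) with rfl | rfl
          · exact absurd (hst ▸ h3) (hA1 _)
          · rfl
        · exact absurd hy id
      · rcases y with v | v
        · exact absurd hy id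
        · left
          have h3 : A1 .w v := hy
          have h4 := h1 _ _ h3
          simp only [Dr, reduceCtorEq, if_false, outL,
            List.mem_cons, List.not_mem_nil, or_false] at h4
          rcases h4 with rfl | rfl
          · rfl
          · exact absurd (h5 ▸ h3) (hA1 _)) (.inl .s)
    simp at this
  have hwt : f .w = .t := by
    obtain ⟨v, hv⟩ := hf.2 .t
    rcases Dr_to_t (hv ▸ harc v) with rfl | rfl
    · exact absurd hv hst
    · exact hv
  have htw : f .t ≠ .w := by
    intro htw
    obtain ⟨z, hz, hz'⟩ := hnc {.t, .w} .t .s (Or.inl rfl) (by simp)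
    rcases hz with rfl | rfl
    · rw [htw] at hz'; simp at hz'
    · rw [hwt] at hz'; simp at hz'
  have hsw : f .s = .w := by
    obtain ⟨v, hv⟩ := hf.2 .w
    rcases Dr_to_w (hv ▸ harc v) with rfl | rfl
    · exact hv
    · exact absurd hv htw
  exact ⟨f, hf, harc, hnc, hsw⟩

variable {f : Nd n m → Nd n m}

theorem Cyc.qf (h : Cyc lit f) (x : Ps n m) :
    f (.q x false) = .q x true ∨ f (.q x false) = .q (sg x) false := by
  have := h.arc (.q x false)
  simpa [Dr, outL] using this

theorem Cyc.qt (h : Cyc lit f) (x : Ps n m) :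
    f (.q x true) = .q (sr x) true ∨ f (.q x true) = nxt lit x := by
  have := h.arc (.q x true)
  simpa [Dr, outL] using this

theorem nxt_ne (x y : Ps n m) : nxt lit x ≠ .q y true := by
  rcases nxt_cases (lit := lit) x with ⟨z, hz⟩ | ⟨z, hz⟩ <;> rw [hz] <;> simp

theorem Cyc.key (h : Cyc lit f) (y : Ps n m) :
    f (.q y false) = .q y true ↔ f (.q (sg y) true) = nxt lit (sg y) := by
  constructor
  · intro h1
    rcases h.qt (sg y) with h2 | h2
    · rw [sr_sg] at h2
      have := h.bij.1 (h1.trans h2.symm)
      simp at this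
    · exact h2
  · intro h1
    obtain ⟨v, hv⟩ := h.bij.2 (.q y true)
    rcases Dr_to_qt (hv ▸ h.arc v) with rfl | rfl | rfl
    · rw [h.fs] at hv
      simp at hv
    · exact hv
    · rw [h1] at hv
      exact absurd hv (nxt_ne _ _)

/-- a line uses a position -/
def Act (lit : Fin m → Fin 3 → Bool × Fin n) (f : Nd n m → Nd n m) (x : Ps n m) : Prop :=
  f (.q x true) = nxt lit x

theorem Cyc.act_iff (h : Cyc lit f) (x : Ps n m) :
    Act lit f x ↔ f (.q (sr x) false) ≠ .q x false := by
  have h1 := h.key (sr x)
  rw [sg_sr] at h1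
  unfold Act
  rw [← h1]
  constructor
  · intro h2
    rw [h2]
    simp
  · intro h2
    rcases h.qf (sr x) with h3 | h3
    · exact h3
    · rw [sg_sr] at h3
      exact absurd h3 h2

theorem nxt_inj (hinj : ∀ j p p', lit j p = lit j p' → p = p') {x x' y : Ps n m}
    (h : nxt lit x = .q y false) (h' : nxt lit x' = .q y false) : x = x' := by
  rcases x with ⟨i, b, j⟩ | ⟨j, p⟩ <;> rcases x' with ⟨i', b', j'⟩ | ⟨j', p'⟩
  · simp only [nxt] at h h'
    split_ifs at h h' with h1 h2
    rcases ho : occ lit ⟨j, h1⟩ (b, i) with _ | p <;> rcases ho' : occ lit ⟨j', h2⟩ (b', i') with _ | p'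
      <;> rw [ho] at h <;> rw [ho'] at h' <;> simp only [Nd.q.injEq, and_true] at h h'
    · rw [← h'] at h
      simp only [Sum.inl.injEq, Prod.mk.injEq, Fin.mk.injEq, Nat.add_right_cancel_iff] at h
      obtain ⟨rfl, rfl, h3⟩ := h
      have : j = j' := Fin.ext h3
      rw [this]
    · rw [← h'] at h
      simp at h
    · rw [← h'] at h
      simp at h
    · rw [← h'] at h
      simp only [Sum.inr.injEq, Prod.mk.injEq, Fin.mk.injEq] at h
      obtain ⟨h3, rfl⟩ := h
      have : j = j' := Fin.ext h3
      subst this
      have h4 := occ_some ho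
      have h5 := occ_some ho'
      rw [h4] at h5
      simp only [Prod.mk.injEq] at h5
      rw [h5.1, h5.2]
  · simp only [nxt] at h h'
    split_ifs at h with h1
    rcases ho : occ lit ⟨j, h1⟩ (b, i) with _ | p <;> rw [ho] at h <;>
      simp only [Nd.q.injEq, and_true] at h h'
    · rw [← h'] at h
      simp only [Sum.inl.injEq, Prod.mk.injEq] at h
      obtain ⟨h3, h4, h5⟩ := h
      have h6 : (⟨j, h1⟩ : Fin m) = j' := by
        have := congrArg Fin.val h5
        simp at this
        exact Fin.ext this
      have h7 : lit ⟨j, h1⟩ p' = (b, i) := by rw [h6, h3, h4]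
      rw [← h7, occ_lit hinj] at ho
      simp at ho
    · rw [← h'] at h
      simp at h
  · simp only [nxt] at h h'
    split_ifs at h' with h1
    rcases ho : occ lit ⟨j', h1⟩ (b', i') with _ | p <;> rw [ho] at h' <;>
      simp only [Nd.q.injEq, and_true] at h h'
    · rw [← h] at h'
      simp only [Sum.inl.injEq, Prod.mk.injEq] at h'
      obtain ⟨h3, h4, h5⟩ := h'
      have h6 : (⟨j', h1⟩ : Fin m) = j := by
        have := congrArg Fin.val h5
        simp at this
        exact Fin.ext this
      have h7 : lit ⟨j', h1⟩ p = (b', i') := by rw [h6, h3, h4]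
      rw [← h7, occ_lit hinj] at ho
      simp at ho
    · rw [← h] at h'
      simp at h'
  · simp only [nxt, Nd.q.injEq, and_true] at h h'
    rw [← h'] at h
    simp only [Sum.inl.injEq, Prod.mk.injEq, Fin.succ_inj] at h
    obtain ⟨h3, h4, rfl⟩ := h
    rw [hinj j p p' (Prod.ext h4 h3)]

/-- positions which are not the first one of a line -/
theorem Cyc.act_nxt (hinj : ∀ j p p', lit j p = lit j p' → p = p') (h : Cyc lit f)
    {x y : Ps n m} (hx : nxt lit x = .q y false)
    (hy : ∀ i b, y ≠ .inl (i, b, 0)) : Act lit f y ↔ Act lit f x := by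
  rw [h.act_iff y]
  constructor
  · intro h1
    obtain ⟨v, hv⟩ := h.bij.2 (.q y false)
    have h2 := hv ▸ h.arc v
    cases v with
    | s => rw [h.fs] at hv; simp at hv
    | w => simp [Dr, outL] at h2
    | t => simp [Dr, outL] at h2
    | a i =>
      exfalso
      simp only [Dr, reduceCtorEq, if_false, outL] at h2
      split_ifs at h2
      · simp only [List.mem_cons, Nd.q.injEq, and_true, List.not_mem_nil, or_false] at h2
        rcases h2 with h2 | h2 <;> exact hy _ _ h2
      · simp at h2
    | q z c =>
      cases c with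
      | false =>
        exfalso
        simp only [Dr, reduceCtorEq, if_false, outL, List.mem_cons, Nd.q.injEq, Bool.false_eq_true,
          and_false, and_true, List.not_mem_nil, or_false, false_or] at h2
        rw [h2, sr_sg] at h1
        rw [h2] at hv
        exact h1 hv
      | true =>
        simp only [Dr, reduceCtorEq, if_false, outL, List.mem_cons, Nd.q.injEq, Bool.false_eq_true,
          and_false, List.not_mem_nil, or_false, false_or] at h2
        have h3 : z = x := nxt_inj hinj h2.symm hx
        subst h3
        unfold Act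
        rw [hv, hx]
  · intro h1 h2
    unfold Act at h1
    rw [hx] at h1
    have := h.bij.1 (h1.trans h2.symm)
    simp at this

theorem Cyc.act_fst (h : Cyc lit f) (i : Fin n) (b : Bool) :
    Act lit f (.inl (i, b, 0)) ↔ f (.a i.castSucc) = .q (.inl (i, b, 0)) false := by
  rw [h.act_iff]
  constructor
  · intro h1
    obtain ⟨v, hv⟩ := h.bij.2 (.q (.inl (i, b, 0)) false)
    have h2 := hv ▸ h.arc v
    cases v with
    | s => rw [h.fs] at hv; simp at hv
    | w => simp [Dr, outL] at h2
    | t => simp [Dr, outL] at h2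
    | a i' =>
      simp only [Dr, reduceCtorEq, if_false, outL] at h2
      split_ifs at h2 with h3
      · simp only [List.mem_cons, Nd.q.injEq, and_true, List.not_mem_nil, or_false, Sum.inl.injEq,
          Prod.mk.injEq] at h2
        have h4 : i' = i.castSucc := by
          rcases h2 with h2 | h2
          · rw [h2.1]; rfl
          · rw [h2.1]; rfl
        rw [← h4]
        exact hv
      · simp at h2
    | q z c =>
      cases c with
      | false =>
        exfalso
        simp only [Dr, reduceCtorEq, if_false, outL, List.mem_cons, Nd.q.injEq, Bool.false_eq_true,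
          and_false, and_true, List.not_mem_nil, or_false, false_or] at h2
        rw [h2, sr_sg] at h1
        rw [h2] at hv
        exact h1 hv
      | true =>
        exfalso
        simp only [Dr, reduceCtorEq, if_false, outL, List.mem_cons, Nd.q.injEq, Bool.false_eq_true,
          and_false, List.not_mem_nil, or_false, false_or] at h2
        rcases z with ⟨i', b', j'⟩ | ⟨j', p'⟩
        · simp only [nxt] at h2
          split_ifs at h2 with h3
          generalize occ lit ⟨j', h3⟩ (b', i') = o at h2
          cases o <;> simp at h2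
        · simp only [nxt, Nd.q.injEq, Sum.inl.injEq, Prod.mk.injEq, and_true] at h2
          exact (Fin.succ_ne_zero _) h2.2.2.symm
  · intro h1 h2
    have := h.bij.1 (h1.trans h2.symm)
    simp at this

theorem Cyc.act_inl (hinj : ∀ j p p', lit j p = lit j p' → p = p') (h : Cyc lit f) (i : Fin n)
    (b : Bool) : ∀ j : ℕ, ∀ hj : j < m + 1, Act lit f (.inl (i, b, ⟨j, hj⟩)) ↔
      f (.a i.castSucc) = .q (.inl (i, b, 0)) false := by
  intro j
  induction j with
  | zero => intro _; exact h.act_fst i b
  | succ j ih =>
    intro hj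
    have hjm : j < m := by omega
    rw [← ih (by omega)]
    have hne : ∀ i' b', (Sum.inl (i, b, ⟨j + 1, hj⟩) : Ps n m) ≠ .inl (i', b', 0) := by
      intro i' b' h1
      simp only [Sum.inl.injEq, Prod.mk.injEq] at h1
      have := congrArg Fin.val h1.2.2
      simp at this
    rcases ho : occ lit ⟨j, hjm⟩ (b, i) with _ | p
    · refine h.act_nxt hinj ?_ hne
      simp [nxt, hjm, ho]
    · have h1 : nxt lit (.inl (i, b, ⟨j, by omega⟩)) = .q (.inr (⟨j, hjm⟩, p)) false := by
        simp [nxt, hjm, ho]
      have h2 : nxt lit (.inr (⟨j, hjm⟩, p)) = .q (.inl (i, b, ⟨j + 1, hj⟩)) false := by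
        simp [nxt, occ_some ho]
      rw [h.act_nxt hinj h2 hne]
      exact h.act_nxt hinj h1 (by simp)

theorem Cyc.act_inr (hinj : ∀ j p p', lit j p = lit j p' → p = p') (h : Cyc lit f) (j : Fin m)
    (p : Fin 3) : Act lit f (.inr (j, p)) ↔
      f (.a (lit j p).2.castSucc) = .q (.inl ((lit j p).2, (lit j p).1, 0)) false := by
  rw [← h.act_inl hinj (lit j p).2 (lit j p).1 j (by omega)]
  refine h.act_nxt hinj ?_ (by simp)
  have h1 : occ lit ⟨j, j.2⟩ ((lit j p).1, (lit j p).2) = some p := occ_lit hinj j p
  simp [nxt, h1]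

theorem Cyc.exists_act (h : Cyc lit f) (j : Fin m) : ∃ p, Act lit f (.inr (j, p)) := by
  by_contra hcon
  push Not at hcon
  obtain ⟨z, ⟨p, rfl⟩, hz'⟩ := h.conn {v | ∃ p, v = .q (.inr (j, p)) false}
    (.q (.inr (j, 0)) false) .s ⟨0, rfl⟩ (by simp)
  apply hz'
  have h1 := hcon (p + 1)
  rw [h.act_iff] at h1
  push Not at h1
  have h2 : sr (.inr (j, p + 1) : Ps n m) = .inr (j, p) := sr_sg (.inr (j, p))
  rw [h2] at h1
  exact ⟨p + 1, h1⟩

/-- the formula is satisfiable -/
theorem sat_of_pair (hinj : ∀ j p p', lit j p = lit j p' → p = p')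
    (h : HasPair (Dr lit)) : ∃ τ : Fin n → Bool, ∀ j, ∃ p, τ (lit j p).2 = (lit j p).1 := by
  classical
  obtain ⟨f, h⟩ := exists_cyc h
  refine ⟨fun i => decide (f (.a i.castSucc) = .q (.inl (i, true, 0)) false), fun j => ?_⟩
  obtain ⟨p, hp⟩ := h.exists_act j
  refine ⟨p, ?_⟩
  rw [h.act_inr hinj] at hp
  rcases hl : lit j p with ⟨b, i⟩
  rw [hl] at hp
  simp only at hp ⊢
  rw [hp]
  cases b <;> simp

end Pool.Agent.K1H71.AS
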