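import Mathlib

/-!
# Antistrong digraphs and bipartite representations
-/

namespace Pool.Agent.K1H71.AS

open Relation

/-- The arcs used by a walk through the vertices of a list whose arcs are alternately forward and
backward; the first one is forward if the boolean is `true`, backward otherwise. -/
def altArcs {V : Type} : Bool → List V → List (V × V)
  | b, x :: y :: t => (if b then (x, y) else (y, x)) :: altArcs (!b) (y :: t)
  | _, [_] => []
  | _, [] => []

/-- The list `p` of vertices is a forward antidirected trail from `x` to `y` in the digraph with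
the arcs `A`: the arcs are alternately forward and backward, the first and the last one are forward
(there is an odd number of arcs), they are arcs of the digraph and no arc is repeated. -/
def IsFwdTrail {V : Type} (A : V → V → Prop) (x y : V) (p : List V) : Prop :=
  p.head? = some x ∧ p.getLast? = some y ∧ p.length % 2 = 0 ∧ (altArcs true p).Nodup ∧
    ∀ e ∈ altArcs true p, A e.1 e.2

/-- Antistrong digraphs. -/
def Antistrong {V : Type} [Fintype V] (A : V → V → Prop) : Prop :=
  3 ≤ Fintype.card V ∧ ∀ x y, x ≠ y → ∃ p, IsFwdTrail A x y p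

/-- Strongly connected digraphs. -/
def Strong {V : Type} (A : V → V → Prop) : Prop := ∀ x y, ReflTransGen A x y

/-- The digraph with the arcs `A` has two arc-disjoint spanning subdigraphs, the first one
antistrong and the second one strong. -/
def HasPair {V : Type} [Fintype V] (A : V → V → Prop) : Prop :=
  ∃ A1 A2 : V → V → Prop, (∀ x y, A1 x y → A x y) ∧ (∀ x y, A2 x y → A x y) ∧
    (∀ x y, ¬ (A1 x y ∧ A2 x y)) ∧ Antistrong A1 ∧ Strong A2

variable {V : Type}

/-- The adjacency of the bipartite representation. -/
def badj (A : V → V → Prop) : V ⊕ V → V ⊕ V → Prop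
  | .inl u, .inr v => A u v
  | .inr v, .inl u => A u v
  | _, _ => False

/-- The bipartite representation. -/
def BG (A : V → V → Prop) : SimpleGraph (V ⊕ V) where
  Adj := badj A
  symm := ⟨by rintro (a | a) (b | b) h <;> exact h⟩
  loopless := ⟨by rintro (a | a) h <;> exact h⟩

/-- the vertex of `V` -/
def prj : V ⊕ V → V := Sum.elim id id

/-- the node of a vertex -/
def nd (b : Bool) (x : V) : V ⊕ V := if b then .inl x else .inr x

theorem altArcs_cons (b : Bool) (x y : V) (t : List V) :
    altArcs b (x :: y :: t) = (if b then (x, y) else (y, x)) :: altArcs (!b) (y :: t) := rfl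

theorem walk_arcs {A : V → V → Prop} : ∀ {a b : V ⊕ V} (w : (BG A).Walk a b),
    (altArcs a.isLeft (w.support.map prj)).map (fun e => s(Sum.inl e.1, Sum.inr e.2)) = w.edges ∧
    w.support.length % 2 = if a.isLeft = b.isLeft then 1 else 0 := by
  intro a b w
  induction w with
  | nil => simp [altArcs]
  | @cons u v w h q ih =>
    obtain ⟨ih1, ih2⟩ := ih
    rw [SimpleGraph.Walk.support_cons, SimpleGraph.Walk.edges_cons, List.length_cons]
    have hs := q.cons_tail_support.symm
    have h1 : u.isLeft = !v.isLeft := by
      rcases u with u | u <;> rcases v with v | v <;> first | rfl | exact absurd h id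
    constructor
    · rw [← ih1, hs, List.map_cons, List.map_cons, altArcs_cons, List.map_cons]
      congr 1
      · rcases u with u | u <;> rcases v with v | v
        · exact absurd h id
        · rfl
        · change s(Sum.inl v, Sum.inr u) = _
          rw [Sym2.eq_swap]
        · exact absurd h id
      · rw [h1, Bool.not_not]
    · rw [h1]
      cases hv : v.isLeft <;> cases hw : w.isLeft <;> simp [hv, hw] at ih2 ⊢ <;> omega

theorem exists_trail {A : V → V → Prop} (h : (BG A).Connected) (x y : V) :
    ∃ p, IsFwdTrail A x y p := by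
  classical
  obtain ⟨w⟩ := h.preconnected (Sum.inl x) (Sum.inr y)
  obtain ⟨q, hq⟩ : ∃ q : (BG A).Walk (Sum.inl x) (Sum.inr y), q.IsPath :=
    ⟨w.toPath.1, w.toPath.2⟩
  obtain ⟨h1, h2⟩ := walk_arcs q
  refine ⟨q.support.map prj, ?_, ?_, ?_, ?_, ?_⟩
  · rw [← q.cons_tail_support]
    rfl
  · rw [List.getLast?_map, List.getLast?_eq_some_getLast q.support_ne_nil, q.getLast_support]
    rfl
  · rw [List.length_map, h2]
    rfl
  · have h3 : (altArcs true (q.support.map prj)).map
        (fun e => s((Sum.inl e.1 : V ⊕ V), Sum.inr e.2)) = q.edges := h1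
    have h4 := hq.isTrail.edges_nodup
    rw [← h3] at h4
    exact List.Nodup.of_map _ h4
  · intro e he
    have h3 : (altArcs true (q.support.map prj)).map
        (fun e => s((Sum.inl e.1 : V ⊕ V), Sum.inr e.2)) = q.edges := h1
    have h4 : s((Sum.inl e.1 : V ⊕ V), Sum.inr e.2) ∈ q.edges := by
      rw [← h3]
      exact List.mem_map_of_mem he
    exact q.adj_of_mem_edges h4

theorem reach_of_arcs {A : V → V → Prop} : ∀ (p : List V) (b : Bool) (x y : V),
    p.head? = some x → p.getLast? = some y → (∀ e ∈ altArcs b p, A e.1 e.2) →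
    (BG A).Reachable (nd b x) (nd (if p.length % 2 = 0 then !b else b) y)
  | [], _, _, _, h, _, _ => by simp at h
  | [z], b, x, y, h, h', _ => by
    simp at h h'
    subst h h'
    simp
  | z :: z' :: t, b, x, y, h, h', hA => by
    simp only [List.head?_cons, Option.some.injEq] at h
    subst h
    rw [altArcs_cons] at hA
    have h1 := reach_of_arcs (z' :: t) (!b) z' y rfl (by rwa [List.getLast?_cons_cons] at h')
      (fun e he => hA e (List.mem_cons_of_mem _ he))
    have h2 : (BG A).Adj (nd b z) (nd (!b) z') := by
      have h3 := hA _ List.mem_cons_self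
      cases b
      · exact h3
      · exact h3
    refine (h2.reachable.trans h1).trans ?_
    have h4 : (if (z' :: t).length % 2 = 0 then !(!b) else !b) =
        (if (z :: z' :: t).length % 2 = 0 then !b else b) := by
      simp only [List.length_cons, Bool.not_not]
      rcases Nat.mod_two_eq_zero_or_one (t.length + 1) with h5 | h5
      · have h6 : (t.length + 1 + 1) % 2 = 1 := by omega
        simp [h5, h6]
      · have h6 : (t.length + 1 + 1) % 2 = 0 := by omega
        simp [h5, h6]
    rw [h4]

theorem connected_of_antistrong [Fintype V] {A : V → V → Prop} (h : Antistrong A) :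
    (BG A).Connected := by
  classical
  obtain ⟨hc, hA⟩ := h
  have key : ∀ x y, x ≠ y → (BG A).Reachable (Sum.inl x) (Sum.inr y) := by
    intro x y hxy
    obtain ⟨p, h1, h2, h3, -, h4⟩ := hA x y hxy
    have := reach_of_arcs p true x y h1 h2 h4
    rw [if_pos h3] at this
    exact this
  have third : ∀ x y : V, ∃ z, z ≠ x ∧ z ≠ y := by
    intro x y
    by_contra hcon
    push Not at hcon
    have : (Finset.univ : Finset V) ⊆ {x, y} := by
      intro z _
      by_cases hz : z = x
      · simp [hz]
      · simp [hcon z hz]
    have := (Finset.card_le_card this).trans Finset.card_le_two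
    rw [Finset.card_univ] at this
    omega
  have hne : Nonempty V := Fintype.card_pos_iff.1 (by omega)
  obtain ⟨x0⟩ := hne
  have hl : ∀ x, (BG A).Reachable (Sum.inl x) (Sum.inl x0) := by
    intro x
    obtain ⟨z, hz1, hz2⟩ := third x x0
    exact (key x z hz1.symm).trans (key x0 z hz2.symm).symm
  have hr : ∀ y, (BG A).Reachable (Sum.inr y) (Sum.inl x0) := by
    intro y
    obtain ⟨z, hz1, -⟩ := third y y
    exact (key z y hz1).symm.trans (hl z)
  have hn : Nonempty (V ⊕ V) := ⟨Sum.inl x0⟩
  refine SimpleGraph.Connected.mk fun a b => ?_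
  have h0 : ∀ a, (BG A).Reachable a (Sum.inl x0) := by
    rintro (a | a)
    · exact hl a
    · exact hr a
  exact (h0 a).trans (h0 b).symm

/-- The arcs of an antistrong digraph: at least `2 n - 1`. -/
theorem card_arcs_of_connected [Fintype V] [DecidableEq V] {A : V → V → Prop}
    [DecidableRel A] (h : (BG A).Connected) :
    2 * Fintype.card V ≤ (Finset.univ.filter (fun e : V × V => A e.1 e.2)).card + 1 := by
  classical
  have h1 := h.card_vert_le_card_edgeSet_add_one
  rw [Nat.card_eq_fintype_card, Fintype.card_sum, Nat.card_eq_fintype_card,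
    ← SimpleGraph.edgeFinset_card] at h1
  have h2 : (BG A).edgeFinset ⊆ (Finset.univ.filter (fun e : V × V => A e.1 e.2)).image
      (fun e => s(Sum.inl e.1, Sum.inr e.2)) := by
    intro e he
    rw [SimpleGraph.mem_edgeFinset] at he
    induction e with
    | h a b =>
      rw [SimpleGraph.mem_edgeSet] at he
      rw [Finset.mem_image]
      rcases a with a | a <;> rcases b with b | b
      · exact absurd he id
      · exact ⟨(a, b), Finset.mem_filter.2 ⟨Finset.mem_univ _, he⟩, rfl⟩
      · refine ⟨(b, a), Finset.mem_filter.2 ⟨Finset.mem_univ _, he⟩, ?_⟩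
        rw [Sym2.eq_swap]
      · exact absurd he id
  have h3 := (Finset.card_le_card h2).trans Finset.card_image_le
  omega

theorem closed_univ {A : V → V → Prop} (h : (BG A).Connected) (S : Set (V ⊕ V))
    (a : V ⊕ V) (ha : a ∈ S) (hS : ∀ x ∈ S, ∀ y, (BG A).Adj x y → y ∈ S) (b : V ⊕ V) : b ∈ S := by
  obtain ⟨w⟩ := h.preconnected a b
  induction w with
  | nil => exact ha
  | cons hadj q ih => exact ih (hS _ ha _ hadj)

end Pool.Agent.K1H71.AS
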