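import Pool.Agent.K1H71.AS.Back

/-!
# From a satisfying assignment to a pair of subdigraphs
-/

namespace Pool.Agent.K1H71.AS

open Relation Finset

variable {n m : ℕ} {lit : Fin m → Fin 3 → Bool × Fin n}

/-- the line of a position -/
def line (lit : Fin m → Fin 3 → Bool × Fin n) : Ps n m → Bool × Fin n
  | .inl (i, b, _) => (b, i)
  | .inr (j, p) => lit j p

/-- the position is on a line which is used -/
def on (lit : Fin m → Fin 3 → Bool × Fin n) (τ : Fin n → Bool) (x : Ps n m) : Bool :=
  decide (τ (line lit x).2 = (line lit x).1)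

theorem on_iff {τ : Fin n → Bool} {x : Ps n m} :
    on lit τ x = true ↔ τ (line lit x).2 = (line lit x).1 := decide_eq_true_iff

/-- the cycle -/
def cyc (lit : Fin m → Fin 3 → Bool × Fin n) (τ : Fin n → Bool) : Nd n m → Nd n m
  | .s => .w
  | .w => .t
  | .t => .a 0
  | .a i => if h : (i : ℕ) < n then .q (.inl (⟨i, h⟩, τ ⟨i, h⟩, 0)) false else .s
  | .q x false => if on lit τ (sg x) then .q x true else .q (sg x) false
  | .q x true => if on lit τ x then nxt lit x else .q (sr x) true

theorem cyc_arc (τ : Fin n → Bool) (u : Nd n m) : Dr lit u (cyc lit τ u) := by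
  cases u with
  | s => simp [Dr, cyc]
  | w => simp [Dr, cyc, outL]
  | t => simp [Dr, cyc, outL]
  | a i =>
    simp only [Dr, reduceCtorEq, if_false, outL, cyc]
    by_cases h : (i : ℕ) < n
    · rw [dif_pos h, dif_pos h]
      cases τ ⟨i, h⟩ <;> simp
    · rw [dif_neg h, dif_neg h]
      simp
  | q x c =>
    cases c
    · simp only [Dr, reduceCtorEq, if_false, outL, cyc]
      split_ifs <;> simp
    · simp only [Dr, reduceCtorEq, if_false, outL, cyc]
      split_ifs <;> simp

/-- reachability along the cycle -/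
def Rc (lit : Fin m → Fin 3 → Bool × Fin n) (τ : Fin n → Bool) (u v : Nd n m) : Prop :=
  ReflTransGen (fun u v => cyc lit τ u = v) u v

variable {τ : Fin n → Bool}

theorem Rc.trans {u v z : Nd n m} (h : Rc lit τ u v) (h' : Rc lit τ v z) : Rc lit τ u z :=
  ReflTransGen.trans h h'

theorem Rc.step {u v z : Nd n m} (h : cyc lit τ u = v) (h' : Rc lit τ v z) : Rc lit τ u z :=
  ReflTransGen.head h h'

theorem Rc.rfl' {u : Nd n m} : Rc lit τ u u := ReflTransGen.refl

theorem cyc_f_on {x : Ps n m} (h : on lit τ (sg x) = true) :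
    cyc lit τ (.q x false) = .q x true := by simp [cyc, h]

theorem cyc_f_off {x : Ps n m} (h : on lit τ (sg x) = false) :
    cyc lit τ (.q x false) = .q (sg x) false := by simp [cyc, h]

theorem cyc_t_on {x : Ps n m} (h : on lit τ x = true) :
    cyc lit τ (.q x true) = nxt lit x := by simp [cyc, h]

theorem cyc_t_off {x : Ps n m} (h : on lit τ x = false) :
    cyc lit τ (.q x true) = .q (sr x) true := by simp [cyc, h]

/-- all blocks contain a used position -/
def Full (lit : Fin m → Fin 3 → Bool × Fin n) (τ : Fin n → Bool) : Prop :=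
  ∀ x : Ps n m, (on lit τ x = true ∨ on lit τ (sr x) = true ∨ on lit τ (sr (sr x)) = true) ∧
    (on lit τ (sg x) = true ∨ on lit τ (sg (sg x)) = true ∨ on lit τ (sg (sg (sg x))) = true)

theorem full_of_sat (hτ : ∀ j, ∃ p, τ (lit j p).2 = (lit j p).1) : Full lit τ := by
  intro x
  rcases x with ⟨i, b, j⟩ | ⟨j, p⟩
  · have h : ∀ b, on lit τ (.inl (i, b, j) : Ps n m) = true ∨ on lit τ (.inl (i, !b, j) : Ps n m) = true := by
      intro b
      rw [on_iff, on_iff]
      change τ i = b ∨ τ i = !b
      cases τ i <;> cases b <;> simp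
    constructor
    · rcases h b with h | h
      · exact Or.inl h
      · exact Or.inr (Or.inl h)
    · simp only [sg, Bool.not_not]
      rcases h b with h | h
      · exact Or.inr (Or.inl h)
      · exact Or.inl h
  · obtain ⟨p', hp'⟩ := hτ j
    have h : on lit τ (.inr (j, p') : Ps n m) = true := on_iff.2 hp'
    have h1 : p' = p ∨ p' = p + 2 ∨ p' = p + 2 + 2 := by revert p p'; intro p p' _ _; clear * -; revert p p'; decide
    have h2 : p' = p + 1 ∨ p' = p + 1 + 1 ∨ p' = p + 1 + 1 + 1 := by
      revert p p'; intro p p' _ _ _; clear * -; revert p p'; decide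
    simp only [sg, sr]
    constructor
    · rcases h1 with rfl | rfl | rfl
      · exact Or.inl h
      · exact Or.inr (Or.inl h)
      · exact Or.inr (Or.inr h)
    · rcases h2 with rfl | rfl | rfl
      · exact Or.inl h
      · exact Or.inr (Or.inl h)
      · exact Or.inr (Or.inr h)

theorem lead_true (hF : Full lit τ) (x : Ps n m) :
    ∃ y, on lit τ y = true ∧ Rc lit τ (.q x true) (.q y true) := by
  by_cases h0 : on lit τ x = true
  · exact ⟨x, h0, Rc.rfl'⟩
  rw [Bool.not_eq_true] at h0
  by_cases h1 : on lit τ (sr x) = true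
  · exact ⟨_, h1, Rc.step (cyc_t_off h0) Rc.rfl'⟩
  rw [Bool.not_eq_true] at h1
  rcases (hF x).1 with h2 | h2 | h2
  · rw [h0] at h2; simp at h2
  · rw [h1] at h2; simp at h2
  · exact ⟨_, h2, Rc.step (cyc_t_off h0) (Rc.step (cyc_t_off h1) Rc.rfl')⟩

theorem false_true (hF : Full lit τ) (x : Ps n m) : Rc lit τ (.q x false) (.q x true) := by
  by_cases h1 : on lit τ (sg x) = true
  · exact Rc.step (cyc_f_on h1) Rc.rfl'
  rw [Bool.not_eq_true] at h1
  refine Rc.step (cyc_f_off h1) ?_
  have e1 : Rc lit τ (.q (sg x) true) (.q x true) := by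
    refine Rc.step (cyc_t_off h1) ?_
    rw [sr_sg]
    exact Rc.rfl'
  by_cases h2 : on lit τ (sg (sg x)) = true
  · exact Rc.step (cyc_f_on h2) e1
  rw [Bool.not_eq_true] at h2
  refine Rc.step (cyc_f_off h2) ?_
  rcases (hF x).2 with h3 | h3 | h3
  · rw [h1] at h3; simp at h3
  · rw [h2] at h3; simp at h3
  · refine Rc.step (cyc_f_on h3) ?_
    refine Rc.step (cyc_t_off h2) ?_
    rw [sr_sg]
    exact e1

theorem on_inl {i : Fin n} {b : Bool} {j : Fin (m + 1)} :
    on lit τ (.inl (i, b, j) : Ps n m) = true ↔ τ i = b := on_iff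

theorem on_inr {j : Fin m} {p : Fin 3} :
    on lit τ (.inr (j, p) : Ps n m) = true ↔ τ (lit j p).2 = (lit j p).1 := on_iff

theorem line_down (hF : Full lit τ) (i : Fin n) (h : Rc lit τ (.a i.succ : Nd n m) .s) :
    ∀ k : ℕ, ∀ hk : k ≤ m, Rc lit τ (.q (.inl (i, τ i, ⟨m - k, by omega⟩)) true) .s := by
  intro k
  induction k with
  | zero =>
    intro _
    refine Rc.step (cyc_t_on (on_inl.2 rfl)) ?_
    have : nxt lit (.inl (i, τ i, ⟨m - 0, by omega⟩)) = .a i.succ := by simp [nxt]
    rw [this]
    exact h
  | succ k ih =>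
    intro hk
    have h1 := ih (by omega)
    have h2 := (false_true hF _).trans h1
    have hjm : m - (k + 1) < m := by omega
    have e : (⟨m - k, by omega⟩ : Fin (m + 1)) = ⟨m - (k + 1) + 1, by omega⟩ := by
      ext; simp; omega
    rw [e] at h2
    refine Rc.step (cyc_t_on (on_inl.2 rfl)) ?_
    rcases ho : occ lit ⟨m - (k + 1), hjm⟩ (τ i, i) with _ | p
    · have : nxt lit (.inl (i, τ i, ⟨m - (k + 1), by omega⟩)) =
          .q (.inl (i, τ i, ⟨m - (k + 1) + 1, by omega⟩)) false := by
        simp [nxt, hjm, ho]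
      rw [this]
      exact h2
    · have h3 : nxt lit (.inl (i, τ i, ⟨m - (k + 1), by omega⟩)) =
          .q (.inr (⟨m - (k + 1), hjm⟩, p)) false := by
        simp [nxt, hjm, ho]
      rw [h3]
      refine (false_true hF _).trans ?_
      have h4 := occ_some ho
      refine Rc.step (cyc_t_on (on_inr.2 (by rw [h4]))) ?_
      have h5 : nxt lit (.inr (⟨m - (k + 1), hjm⟩, p)) =
          .q (.inl (i, τ i, ⟨m - (k + 1) + 1, by omega⟩)) false := by
        simp [nxt, h4]
      rw [h5]
      exact h2

theorem a_down (hF : Full lit τ) : ∀ k : ℕ, ∀ hk : k ≤ n,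
    Rc lit τ (.a ⟨n - k, by omega⟩ : Nd n m) .s := by
  intro k
  induction k with
  | zero =>
    intro _
    refine Rc.step ?_ Rc.rfl'
    simp [cyc]
  | succ k ih =>
    intro hk
    have h1 := ih (by omega)
    have hlt : n - (k + 1) < n := by omega
    have e : (⟨n - k, by omega⟩ : Fin (n + 1)) = (⟨n - (k + 1), hlt⟩ : Fin n).succ := by
      ext; simp; omega
    rw [e] at h1
    have h2 := line_down hF _ h1 m le_rfl
    have h3 := (false_true hF _).trans h2
    refine Rc.step ?_ h3
    simp [cyc, hlt]

theorem to_s (hF : Full lit τ) (v : Nd n m) : Rc lit τ v .s := by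
  have ha : ∀ i, Rc lit τ (.a i : Nd n m) .s := by
    intro i
    have := a_down hF (lit := lit) (n - i) (by omega)
    have e : (⟨n - (n - i), by omega⟩ : Fin (n + 1)) = i := by ext; simp; omega
    rwa [e] at this
  have hl : ∀ i j, Rc lit τ (.q (.inl (i, τ i, j)) true) .s := by
    intro i j
    have := line_down hF i (ha _) (m - j) (by omega)
    have e : (⟨m - (m - j), by omega⟩ : Fin (m + 1)) = j := by ext; simp; omega
    rwa [e] at this
  have hon : ∀ x, on lit τ x = true → Rc lit τ (.q x true) .s := by
    rintro (⟨i, b, j⟩ | ⟨j, p⟩) hx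
    · rw [on_inl] at hx
      rw [← hx]
      exact hl i j
    · refine Rc.step (cyc_t_on hx) ?_
      rw [on_inr] at hx
      simp only [nxt]
      rw [← hx]
      exact (false_true hF _).trans (hl _ _)
  have hq : ∀ x, Rc lit τ (.q x true) .s := by
    intro x
    obtain ⟨y, hy, h⟩ := lead_true hF x
    exact h.trans (hon y hy)
  cases v with
  | s => exact Rc.rfl'
  | w => exact Rc.step rfl (Rc.step rfl (ha 0))
  | t => exact Rc.step rfl (ha 0)
  | a i => exact ha i
  | q x c =>
    cases c
    · exact (false_true hF x).trans (hq x)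
    · exact hq x

theorem cyc_surj (hinj : ∀ j p p', lit j p = lit j p' → p = p') :
    Function.Surjective (cyc lit τ) := by
  intro v
  cases v with
  | s => exact ⟨.a (Fin.last n), by simp [cyc]⟩
  | w => exact ⟨.s, rfl⟩
  | t => exact ⟨.w, rfl⟩
  | a i =>
    refine Fin.cases ⟨.t, rfl⟩ (fun i => ?_) i
    refine ⟨.q (.inl (i, τ i, Fin.last m)) true, ?_⟩
    rw [cyc_t_on (on_inl.2 rfl)]
    simp [nxt]
  | q x c =>
    cases c with
    | true =>
      by_cases h : on lit τ (sg x) = true
      · exact ⟨.q x false, cyc_f_on h⟩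
      · rw [Bool.not_eq_true] at h
        refine ⟨.q (sg x) true, ?_⟩
        rw [cyc_t_off h, sr_sg]
    | false =>
      by_cases h : on lit τ x = true
      · rcases x with ⟨i, b, j⟩ | ⟨j, p⟩
        · rw [on_inl] at h
          subst h
          refine Fin.cases ?_ (fun j => ?_) j
          · refine ⟨.a i.castSucc, ?_⟩
            simp [cyc]
          · rcases ho : occ lit j (τ i, i) with _ | p
            · refine ⟨.q (.inl (i, τ i, j.castSucc)) true, ?_⟩
              rw [cyc_t_on (on_inl.2 rfl)]
              simp [nxt, ho]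
              rfl
            · refine ⟨.q (.inr (j, p)) true, ?_⟩
              have h4 := occ_some ho
              rw [cyc_t_on (on_inr.2 (by rw [h4]))]
              simp [nxt, h4]
        · rw [on_inr] at h
          refine ⟨.q (.inl ((lit j p).2, (lit j p).1, j.castSucc)) true, ?_⟩
          rw [cyc_t_on (on_inl.2 h)]
          have h1 : occ lit j ((lit j p).1, (lit j p).2) = some p := occ_lit hinj j p
          simp [nxt, h1]
      · rw [Bool.not_eq_true] at h
        refine ⟨.q (sr x) false, ?_⟩
        rw [cyc_f_off (by rw [sg_sr]; exact h), sg_sr]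

theorem cyc_strong (hinj : ∀ j p p', lit j p = lit j p' → p = p') (hF : Full lit τ) :
    Strong (fun u v : Nd n m => cyc lit τ u = v) := by
  classical
  have hbij : Function.Injective (cyc lit τ) :=
    Finite.injective_iff_surjective.2 (cyc_surj hinj)
  let S : Finset (Nd n m) := univ.filter (fun v => Rc lit τ .s v)
  have hS : S.image (cyc lit τ) = S := by
    apply Finset.eq_of_subset_of_card_le
    · intro v hv
      rw [mem_image] at hv
      obtain ⟨u, hu, rfl⟩ := hv
      rw [mem_filter] at hu ⊢
      exact ⟨mem_univ _, hu.2.trans (Rc.step rfl Rc.rfl')⟩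
    · rw [card_image_of_injective _ hbij]
  have hback : ∀ u, cyc lit τ u ∈ S → u ∈ S := by
    intro u hu
    rw [← hS, mem_image] at hu
    obtain ⟨u', hu', h⟩ := hu
    rw [← hbij h]
    exact hu'
  have hall : ∀ v, Rc lit τ .s v := by
    intro v
    have h := to_s hF v
    have h1 : v ∈ S := by
      unfold Rc at h
      induction h using ReflTransGen.head_induction_on with
      | refl => exact mem_filter.2 ⟨mem_univ _, Rc.rfl'⟩
      | head h1 _ ih =>
        apply hback
        rw [h1]
        exact ih
    exact (mem_filter.1 h1).2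
  intro u v
  exact (to_s hF u).trans (hall v)

theorem pair_of_sat (hn : 0 < n) (hinj : ∀ j p p', lit j p = lit j p' → p = p')
    (hτ : ∀ j, ∃ p, τ (lit j p).2 = (lit j p).1) : HasPair (Dr lit) := by
  classical
  have hF := full_of_sat hτ
  refine ⟨fun u v => Dr lit u v ∧ cyc lit τ u ≠ v, fun u v => cyc lit τ u = v,
    fun u v h => h.1, ?_, ?_, ?_, cyc_strong hinj hF⟩
  · rintro u v rfl
    exact cyc_arc τ u
  · rintro u v ⟨h, h'⟩
    exact h.2 h'
  · have ha0 : (Fin.last n) ≠ (0 : Fin (n + 1)) := by
      intro h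
      have := congrArg Fin.val h
      simp at this
      omega
    refine ⟨?_, ?_⟩
    · have : ({.s, .w, .t} : Finset (Nd n m)).card ≤ Fintype.card (Nd n m) := by
        rw [← card_univ]; exact card_le_card (subset_univ _)
      simpa using this
    · intro x y _
      apply exists_trail
      set G := BG (fun u v : Nd n m => Dr lit u v ∧ cyc lit τ u ≠ v) with hG
      have hs : ∀ v : Nd n m, v ≠ .s → v ≠ .w → G.Adj (.inl .s) (.inr v) := by
        intro v h1 h2
        refine ⟨?_, ?_⟩
        · simp [Dr, h1]
        · simpa [cyc] using h2.symm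
      have hr : ∀ v : Nd n m, v ≠ .s → v ≠ .w → G.Reachable (.inr v) (.inl .s) :=
        fun v h1 h2 => (hs v h1 h2).symm.reachable
      have ht : G.Reachable (.inl .t) (.inl .s) := by
        have : G.Adj (.inl .t) (.inr (.a (Fin.last n))) := by
          refine ⟨by simp [Dr, outL], ?_⟩
          simpa [cyc] using ha0.symm
        exact this.reachable.trans (hr _ (by simp) (by simp))
      have hrs : G.Reachable (.inr .s) (.inl .s) := by
        have : G.Adj (.inl .t) (.inr .s) := ⟨by simp [Dr, outL], by simp [cyc]⟩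
        exact this.symm.reachable.trans ht
      have hrw : G.Reachable (.inr .w) (.inl .s) := by
        have : G.Adj (.inl .t) (.inr .w) := ⟨by simp [Dr, outL], by simp [cyc]⟩
        exact this.symm.reachable.trans ht
      have hrall : ∀ v, G.Reachable (.inr v) (.inl .s) := by
        intro v
        by_cases h1 : v = .s
        · rw [h1]; exact hrs
        by_cases h2 : v = .w
        · rw [h2]; exact hrw
        exact hr v h1 h2
      have hout : ∀ u : Nd n m, u ≠ .s → ∃ v, Dr lit u v ∧ cyc lit τ u ≠ v := by
        intro u hu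
        cases u with
        | s => exact absurd rfl hu
        | w => exact ⟨.a 0, by simp [Dr, outL], by simp [cyc]⟩
        | t => exact ⟨.s, by simp [Dr, outL], by simp [cyc]⟩
        | a i =>
          by_cases h : (i : ℕ) < n
          · refine ⟨.q (.inl (⟨i, h⟩, !(τ ⟨i, h⟩), 0)) false, ?_, ?_⟩
            · simp only [Dr, reduceCtorEq, if_false, outL, dif_pos h]
              cases τ ⟨i, h⟩ <;> simp
            · simp [cyc, h]
          · refine ⟨.a 0, ?_, ?_⟩
            · simp only [Dr, reduceCtorEq, if_false, outL, dif_neg h]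
              simp
            · simp [cyc, h]
        | q x c =>
          cases c with
          | false =>
            by_cases h : on lit τ (sg x) = true
            · exact ⟨.q (sg x) false, by simp [Dr, outL], by rw [cyc_f_on h]; simp⟩
            · rw [Bool.not_eq_true] at h
              exact ⟨.q x true, by simp [Dr, outL], by rw [cyc_f_off h]; simp⟩
          | true =>
            by_cases h : on lit τ x = true
            · exact ⟨.q (sr x) true, by simp [Dr, outL], by rw [cyc_t_on h]; exact nxt_ne _ _⟩
            · rw [Bool.not_eq_true] at h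
              exact ⟨nxt lit x, by simp [Dr, outL], by rw [cyc_t_off h]; exact (nxt_ne _ _).symm⟩
      have hlall : ∀ u, G.Reachable (.inl u) (.inl .s) := by
        intro u
        by_cases h1 : u = .s
        · rw [h1]
        obtain ⟨v, hv⟩ := hout u h1
        have : G.Adj (.inl u) (.inr v) := hv
        exact this.reachable.trans (hrall v)
      have h0 : ∀ a, G.Reachable a (.inl .s) := by
        rintro (a | a)
        · exact hlall a
        · exact hrall a
      have hne : Nonempty (Nd n m ⊕ Nd n m) := ⟨.inl .s⟩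
      exact SimpleGraph.Connected.mk fun a b => (h0 a).trans (h0 b).symm

theorem pair_iff (hn : 0 < n) (hinj : ∀ j p p', lit j p = lit j p' → p = p') :
    HasPair (Dr lit) ↔ ∃ τ : Fin n → Bool, ∀ j, ∃ p, τ (lit j p).2 = (lit j p).1 :=
  ⟨sat_of_pair hinj, fun ⟨_, hτ⟩ => pair_of_sat hn hinj hτ⟩

end Pool.Agent.K1H71.AS
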