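import Pool.Agent.K1H71.AS.Forw
import Pool.Agent.NPC.Sat2
import Pool.Agent.H601R2.PP

/-!
# The instances and the reduction
-/

namespace Pool.Agent.K1H71.AS

open Relation Finset Pool.Agent.NPC

/-- The digraph with the vertices `0, ..., n - 1` presented by an adjacency matrix with `n` rows:
there is an arc from `i` to `j ≠ i` if the entry at `(i, j)` is `true`. -/
def dg (M : List (List Bool)) (i j : Fin M.length) : Prop :=
  i ≠ j ∧ (M.getD i []).getD j false = true

/-- Does the digraph have two arc-disjoint spanning subdigraphs, the first one antistrong and the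
second one strong? -/
def AntistrongStrong (M : List (List Bool)) : Prop := HasPair (dg M)

/-! ### transport -/

theorem altArcs_map {V W : Type} (e : V → W) : ∀ (b : Bool) (p : List V),
    altArcs b (p.map e) = (altArcs b p).map (Prod.map e e)
  | _, [] => rfl
  | _, [_] => rfl
  | b, x :: y :: t => by
    have h := altArcs_map e (!b) (y :: t)
    simp only [List.map_cons] at h
    simp only [List.map_cons, altArcs_cons, h]
    cases b <;> rfl

theorem hasPair_equiv {V W : Type} [Fintype V] [Fintype W] {A : V → V → Prop} {B : W → W → Prop}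
    (e : V ≃ W) (h : ∀ u v, A u v ↔ B (e u) (e v)) (hA : HasPair A) : HasPair B := by
  obtain ⟨A1, A2, h1, h2, hd, ha, hs⟩ := hA
  refine ⟨fun x y => A1 (e.symm x) (e.symm y), fun x y => A2 (e.symm x) (e.symm y), ?_, ?_, ?_,
    ⟨?_, ?_⟩, ?_⟩
  · intro x y hxy
    have := (h _ _).1 (h1 _ _ hxy)
    simpa using this
  · intro x y hxy
    have := (h _ _).1 (h2 _ _ hxy)
    simpa using this
  · exact fun x y => hd _ _
  · rw [← Fintype.card_congr e]
    exact ha.1
  · intro x y hxy
    obtain ⟨p, p1, p2, p3, p4, p5⟩ := ha.2 (e.symm x) (e.symm y) (by simpa using hxy)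
    refine ⟨p.map e, ?_, ?_, ?_, ?_, ?_⟩
    · rw [List.head?_map, p1]; simp
    · rw [List.getLast?_map, p2]; simp
    · rw [List.length_map]; exact p3
    · rw [altArcs_map]
      exact p4.map (e.injective.prodMap e.injective)
    · intro q hq
      rw [altArcs_map, List.mem_map] at hq
      obtain ⟨r, hr, rfl⟩ := hq
      simpa using p5 r hr
  · intro x y
    have : ReflTransGen (fun x y => A2 (e.symm x) (e.symm y)) (e (e.symm x)) (e (e.symm y)) :=
      ReflTransGen.lift (p := fun x y => A2 (e.symm x) (e.symm y)) e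
      (fun a b hab => by
        change A2 (e.symm (e a)) (e.symm (e b))
        simpa using hab) _ _ (hs (e.symm x) (e.symm y))
    simpa using this

/-! ### labels -/

/-- formulas -/
abbrev F3 : Type := List (Lit ℕ × Lit ℕ × Lit ℕ)

/-- labels of vertices -/
abbrev Lb : Type := ℕ × ℕ × Bool × ℕ × Bool

/-- the label of `s` -/
def ls : Lb := (0, 0, false, 0, false)
/-- the label of `w` -/
def lw : Lb := (1, 0, false, 0, false)
/-- the label of `t` -/
def lt : Lb := (2, 0, false, 0, false)
/-- the label of `a i` -/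
def la (i : ℕ) : Lb := (3, i, false, 0, false)
/-- labels of the positions outside the clauses -/
def l4 (i : ℕ) (b : Bool) (j : ℕ) (c : Bool) : Lb := (4, i, b, j, c)
/-- labels of the positions in the clauses -/
def l5 (j p : ℕ) (c : Bool) : Lb := (5, p, false, j, c)

/-- a literal of the formula -/
def litL (φ : F3) (j p : ℕ) : Bool × ℕ :=
  if p = 0 then (φ.getD j ((false, 0), (false, 0), (false, 0))).1
  else if p = 1 then (φ.getD j ((false, 0), (false, 0), (false, 0))).2.1
  else (φ.getD j ((false, 0), (false, 0), (false, 0))).2.2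

/-- the next vertex of a line -/
def nxtL (φ : F3) (i : ℕ) (b : Bool) (j : ℕ) : Lb :=
  if j < φ.length then
    if litL φ j 0 = (b, i) then l5 j 0 false
    else if litL φ j 1 = (b, i) then l5 j 1 false
    else if litL φ j 2 = (b, i) then l5 j 2 false
    else l4 i b (j + 1) false
  else la (i + 1)

/-- out-neighbours -/
def outLab (φ : F3) (u : Lb) : List Lb :=
  if u.1 = 0 then []
  else if u.1 = 1 then [lt, la 0]
  else if u.1 = 2 then [ls, lw, la 0, la (3 * φ.length)]
  else if u.1 = 3 then
    if u.2.1 < 3 * φ.length then [l4 u.2.1 true 0 false, l4 u.2.1 false 0 false] else [ls, la 0]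
  else if u.1 = 4 then
    if u.2.2.2.2 = true then
      [l4 u.2.1 (!u.2.2.1) u.2.2.2.1 true, nxtL φ u.2.1 u.2.2.1 u.2.2.2.1]
    else [l4 u.2.1 u.2.2.1 u.2.2.2.1 true, l4 u.2.1 (!u.2.2.1) u.2.2.2.1 false]
  else
    if u.2.2.2.2 = true then
      [l5 u.2.2.2.1 ((u.2.1 + 2) % 3) true,
        l4 (litL φ u.2.2.2.1 u.2.1).2 (litL φ u.2.2.2.1 u.2.1).1 (u.2.2.2.1 + 1) false]
    else [l5 u.2.2.2.1 u.2.1 true, l5 u.2.2.2.1 ((u.2.1 + 1) % 3) false]

/-- adjacency of labels -/
def adL (φ : F3) (u v : Lb) : Bool :=
  if u.1 = 0 then !decide (v.1 = 0) else decide (v ∈ outLab φ u)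

/-- the labels of the vertices -/
def vsL (φ : F3) : List Lb :=
  [ls, lw, lt] ++ ((List.range (3 * φ.length + 1)).map la ++
    ((List.range (3 * φ.length)).flatMap (fun i => (List.range (φ.length + 1)).flatMap fun j =>
      [l4 i true j true, l4 i true j false, l4 i false j true, l4 i false j false]) ++
    (List.range φ.length).flatMap (fun j => (List.range 3).flatMap fun p =>
      [l5 j p true, l5 j p false])))

/-- the reduction -/
def redL (φ : F3) : List (List Bool) := (vsL φ).map fun u => (vsL φ).map fun v => adL φ u v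

theorem poly_litL : Poly (fun x : F3 × ℕ × ℕ => litL x.1 x.2.1 x.2.2) := by
  unfold litL; fun_prop

theorem poly_nxtL : Poly (fun x : F3 × ℕ × Bool × ℕ => nxtL x.1 x.2.1 x.2.2.1 x.2.2.2) := by
  have h := poly_litL
  unfold nxtL l5 l4 la
  fun_prop

theorem poly_outLab : Poly (fun x : F3 × Lb => outLab x.1 x.2) := by
  have h := poly_litL
  have h2 := poly_nxtL
  unfold outLab l5 l4 la lt ls lw
  refine Poly.ite (by fun_prop) (by fun_prop) (Poly.ite (by fun_prop) (by fun_prop)
    (Poly.ite (by fun_prop) (by fun_prop) (Poly.ite (by fun_prop) (by fun_prop)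
    (Poly.ite (by fun_prop) ?_ ?_))))
  · refine Poly.ite (by fun_prop) ?_ (by fun_prop)
    refine Poly.cons (by fun_prop) (Poly.cons ?_ (by fun_prop))
    exact h2.comp (f := fun x : F3 × Lb => (x.1, x.2.2.1, x.2.2.2.1, x.2.2.2.2.1)) (by fun_prop)
  · refine Poly.ite (by fun_prop) ?_ (by fun_prop)
    refine Poly.cons (by fun_prop) (Poly.cons ?_ (by fun_prop))
    have h3 : Poly (fun x : F3 × Lb => litL x.1 x.2.2.2.2.1 x.2.2.1) :=
      h.comp (f := fun x : F3 × Lb => (x.1, x.2.2.2.2.1, x.2.2.1)) (by fun_prop)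
    fun_prop

theorem poly_adL : Poly (fun x : F3 × Lb × Lb => adL x.1 x.2.1 x.2.2) := by
  unfold adL
  refine Poly.ite (by fun_prop) (by fun_prop) (Poly.dec_mem (by fun_prop) ?_)
  exact poly_outLab.comp (f := fun x : F3 × Lb × Lb => (x.1, x.2.1)) (by fun_prop)

theorem poly_range_len (k c : ℕ) : Poly (fun φ : F3 => List.range (k * φ.length + c)) :=
  (UPoly.add (UPoly.mul (UPoly.const k) (UPoly.length Poly.id)) (UPoly.const c)).range

theorem poly_vsL : Poly vsL := by
  have h1 := poly_range_len 3 1
  have h2 : Poly (fun φ : F3 => List.range (3 * φ.length)) := poly_range_len 3 0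
  have h3 : Poly (fun φ : F3 => List.range (φ.length + 1)) :=
    (poly_range_len 1 1).congr fun φ => by rw [one_mul]
  have h4 : Poly (fun φ : F3 => List.range φ.length) :=
    (poly_range_len 1 0).congr fun φ => by rw [one_mul, add_zero]
  unfold vsL
  refine NPC.Poly.append (NPC.Poly.const _) (NPC.Poly.append ?_ (NPC.Poly.append ?_ ?_))
  · exact NPC.Poly.map (F := fun (_ : F3) i => la i) h1 (by unfold la; fun_prop)
  · refine NPC.Poly.flatMap (F := fun (φ : F3) (i : ℕ) =>
      (List.range (φ.length + 1)).flatMap fun j =>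
        [l4 i true j true, l4 i true j false, l4 i false j true, l4 i false j false]) h2 ?_
    refine NPC.Poly.flatMap (F := fun (x : F3 × ℕ) (j : ℕ) =>
        [l4 x.2 true j true, l4 x.2 true j false, l4 x.2 false j true, l4 x.2 false j false])
        (h3.comp (NPC.Poly.fst NPC.Poly.id)) ?_
    unfold l4
    fun_prop
  · refine NPC.Poly.flatMap (F := fun (φ : F3) (j : ℕ) =>
      (List.range 3).flatMap fun p => [l5 j p true, l5 j p false]) h4 ?_
    refine NPC.Poly.flatMap (F := fun (x : F3 × ℕ) (p : ℕ) =>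
        [l5 x.2 p true, l5 x.2 p false]) (NPC.Poly.const _) ?_
    unfold l5
    fun_prop

theorem poly_redL : Poly redL := by
  have h := poly_vsL
  have h2 := poly_adL
  unfold redL
  refine NPC.Poly.map (F := fun (φ : F3) (u : Lb) => (vsL φ).map fun v => adL φ u v) h ?_
  refine NPC.Poly.map (l := fun x : F3 × Lb => vsL x.1) (F := fun (x : F3 × Lb) (v : Lb) =>
    adL x.1 x.2 v) (h.comp (NPC.Poly.fst NPC.Poly.id)) ?_
  exact h2.comp (f := fun x : (F3 × Lb) × Lb => (x.1.1, x.1.2, x.2)) (by fun_prop)

/-! ### correctness of the labels -/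

/-- the label of a vertex -/
def code {n m : ℕ} : Nd n m → Lb
  | .s => ls
  | .w => lw
  | .t => lt
  | .a i => la i
  | .q (.inl (i, b, j)) c => l4 i b j c
  | .q (.inr (j, p)) c => l5 j p c

theorem code_inj {n m : ℕ} : Function.Injective (code : Nd n m → Lb) := by
  intro u v h
  rcases u with _ | _ | _ | i | ⟨⟨i, b, j⟩ | ⟨j, p⟩, c⟩ <;>
    rcases v with _ | _ | _ | i' | ⟨⟨i', b', j'⟩ | ⟨j', p'⟩, c'⟩ <;>
    simp only [code, ls, lw, lt, la, l4, l5, Prod.mk.injEq] at h <;>
    first
    | rfl
    | (simp at h; done)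
    | (obtain ⟨-, h1, h2, h3, h4⟩ := h; rw [Fin.ext h1, h2, Fin.ext h3, h4])
    | (obtain ⟨-, h1, h2, h3, h4⟩ := h; rw [Fin.ext h1, Fin.ext h3, h4])
    | (obtain ⟨-, h1, -⟩ := h; rw [Fin.ext h1])

theorem code_mem {φ : F3} (u : Nd (3 * φ.length) φ.length) : code u ∈ vsL φ := by
  unfold vsL
  rcases u with _ | _ | _ | i | ⟨⟨i, b, j⟩ | ⟨j, p⟩, c⟩
  · simp [code]
  · simp [code]
  · simp [code]
  · refine List.mem_append_right _ (List.mem_append_left _ ?_)
    rw [List.mem_map]
    exact ⟨i, List.mem_range.2 i.2, rfl⟩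
  · refine List.mem_append_right _ (List.mem_append_right _ (List.mem_append_left _ ?_))
    rw [List.mem_flatMap]
    refine ⟨i, List.mem_range.2 i.2, ?_⟩
    rw [List.mem_flatMap]
    refine ⟨j, List.mem_range.2 j.2, ?_⟩
    cases b <;> cases c <;> simp [code]
  · refine List.mem_append_right _ (List.mem_append_right _ (List.mem_append_right _ ?_))
    rw [List.mem_flatMap]
    refine ⟨j, List.mem_range.2 j.2, ?_⟩
    rw [List.mem_flatMap]
    refine ⟨p, List.mem_range.2 p.2, ?_⟩
    cases c <;> simp [code]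

theorem mem_vsL {φ : F3} {z : Lb} (h : z ∈ vsL φ) : ∃ u : Nd (3 * φ.length) φ.length, code u = z := by
  unfold vsL at h
  rw [List.mem_append, List.mem_append, List.mem_append] at h
  rcases h with h | h | h | h
  · simp only [List.mem_cons, List.not_mem_nil, or_false] at h
    rcases h with rfl | rfl | rfl
    · exact ⟨.s, rfl⟩
    · exact ⟨.w, rfl⟩
    · exact ⟨.t, rfl⟩
  · rw [List.mem_map] at h
    obtain ⟨i, hi, rfl⟩ := h
    exact ⟨.a ⟨i, List.mem_range.1 hi⟩, rfl⟩
  · rw [List.mem_flatMap] at h
    obtain ⟨i, hi, h⟩ := h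
    rw [List.mem_flatMap] at h
    obtain ⟨j, hj, h⟩ := h
    rw [List.mem_range] at hi hj
    simp only [List.mem_cons, List.not_mem_nil, or_false] at h
    rcases h with rfl | rfl | rfl | rfl
    · exact ⟨.q (.inl (⟨i, hi⟩, true, ⟨j, hj⟩)) true, rfl⟩
    · exact ⟨.q (.inl (⟨i, hi⟩, true, ⟨j, hj⟩)) false, rfl⟩
    · exact ⟨.q (.inl (⟨i, hi⟩, false, ⟨j, hj⟩)) true, rfl⟩
    · exact ⟨.q (.inl (⟨i, hi⟩, false, ⟨j, hj⟩)) false, rfl⟩
  · rw [List.mem_flatMap] at h
    obtain ⟨j, hj, h⟩ := h
    rw [List.mem_flatMap] at h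
    obtain ⟨p, hp, h⟩ := h
    rw [List.mem_range] at hp hj
    simp only [List.mem_cons, List.not_mem_nil, or_false] at h
    rcases h with rfl | rfl
    · exact ⟨.q (.inr (⟨j, hj⟩, ⟨p, hp⟩)) true, rfl⟩
    · exact ⟨.q (.inr (⟨j, hj⟩, ⟨p, hp⟩)) false, rfl⟩

theorem nodup_vsL (φ : F3) : (vsL φ).Nodup := by
  unfold vsL
  rw [List.nodup_append, List.nodup_append, List.nodup_append]
  refine ⟨by decide, ⟨?_, ⟨?_, ?_, ?_⟩, ?_⟩, ?_⟩
  · refine List.Nodup.map ?_ List.nodup_range
    intro a b h
    simpa [la] using h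
  · rw [List.nodup_flatMap]
    refine ⟨fun i _ => ?_, ?_⟩
    · rw [List.nodup_flatMap]
      refine ⟨fun j _ => by simp [l4], ?_⟩
      refine List.Pairwise.imp ?_ List.nodup_range
      intro a b hab
      simp only [Function.onFun, List.disjoint_left]
      intro x hx hy
      simp only [List.mem_cons, List.not_mem_nil, or_false, l4] at hx hy
      rcases hx with rfl | rfl | rfl | rfl <;> simp at hy <;> omega
    · refine List.Pairwise.imp ?_ List.nodup_range
      intro a b hab
      simp only [Function.onFun, List.disjoint_left]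
      intro x hx hy
      rw [List.mem_flatMap] at hx hy
      obtain ⟨j, -, hx⟩ := hx
      obtain ⟨j', -, hy⟩ := hy
      simp only [List.mem_cons, List.not_mem_nil, or_false, l4] at hx hy
      rcases hx with rfl | rfl | rfl | rfl <;> simp at hy <;> omega
  · rw [List.nodup_flatMap]
    refine ⟨fun i _ => ?_, ?_⟩
    · rw [List.nodup_flatMap]
      refine ⟨fun j _ => by simp [l5], ?_⟩
      refine List.Pairwise.imp ?_ List.nodup_range
      intro a b hab
      simp only [Function.onFun, List.disjoint_left]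
      intro x hx hy
      simp only [List.mem_cons, List.not_mem_nil, or_false, l5] at hx hy
      rcases hx with rfl | rfl <;> simp at hy <;> omega
    · refine List.Pairwise.imp ?_ List.nodup_range
      intro a b hab
      simp only [Function.onFun, List.disjoint_left]
      intro x hx hy
      rw [List.mem_flatMap] at hx hy
      obtain ⟨j, -, hx⟩ := hx
      obtain ⟨j', -, hy⟩ := hy
      simp only [List.mem_cons, List.not_mem_nil, or_false, l5] at hx hy
      rcases hx with rfl | rfl <;> simp at hy <;> omega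
  · intro a ha b hb hab
    rw [List.mem_flatMap] at ha hb
    obtain ⟨i, -, ha⟩ := ha
    obtain ⟨i', -, hb⟩ := hb
    rw [List.mem_flatMap] at ha hb
    obtain ⟨j, -, ha⟩ := ha
    obtain ⟨j', -, hb⟩ := hb
    subst hab
    simp only [List.mem_cons, List.not_mem_nil, or_false, l5, l4] at ha hb
    rcases ha with rfl | rfl | rfl | rfl <;> simp at hb
  · intro a ha b hb hab
    subst hab
    rw [List.mem_map] at ha
    obtain ⟨i, -, rfl⟩ := ha
    rw [List.mem_append, List.mem_flatMap, List.mem_flatMap] at hb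
    rcases hb with ⟨i', -, hb⟩ | ⟨i', -, hb⟩
    · rw [List.mem_flatMap] at hb
      obtain ⟨j, -, hb⟩ := hb
      simp [l4, la] at hb
    · rw [List.mem_flatMap] at hb
      obtain ⟨j, -, hb⟩ := hb
      simp [l5, la] at hb
  · intro a ha b hb hab
    subst hab
    have h1 : a.1 < 3 := by
      simp only [List.mem_cons, List.not_mem_nil, or_false] at ha
      rcases ha with rfl | rfl | rfl <;> simp [ls, lw, lt]
    rw [List.mem_append, List.mem_append, List.mem_map, List.mem_flatMap, List.mem_flatMap] at hb
    rcases hb with ⟨i', -, rfl⟩ | ⟨i', -, hb⟩ | ⟨i', -, hb⟩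
    · simp [la] at h1
    · rw [List.mem_flatMap] at hb
      obtain ⟨j, -, hb⟩ := hb
      simp only [List.mem_cons, List.not_mem_nil, or_false, l4] at hb
      rcases hb with rfl | rfl | rfl | rfl <;> simp at h1
    · rw [List.mem_flatMap] at hb
      obtain ⟨j, -, hb⟩ := hb
      simp only [List.mem_cons, List.not_mem_nil, or_false, l5] at hb
      rcases hb with rfl | rfl <;> simp at h1

/-- the literals, for bounded formulas -/
def litF (φ : F3) (hb : Bounded3 φ) (j : Fin φ.length) (p : Fin 3) : Bool × Fin (3 * φ.length) :=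
  ((litL φ j p).1, ⟨(litL φ j p).2, by
    have h := hb _ (List.getElem_mem j.2)
    unfold litL
    rw [List.getD_eq_getElem _ _ j.2]
    split_ifs
    · exact h.1
    · exact h.2.1
    · exact h.2.2⟩)

theorem litL_eq_iff {φ : F3} (hb : Bounded3 φ) (j : Fin φ.length) (p : Fin 3) (b : Bool)
    (i : Fin (3 * φ.length)) : litL φ j p = (b, (i : ℕ)) ↔ litF φ hb j p = (b, i) := by
  unfold litF
  constructor
  · intro h
    simp only [Prod.mk.injEq]
    refine ⟨by rw [h], ?_⟩
    ext
    simp [h]
  · intro h
    simp only [Prod.mk.injEq] at h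
    refine Prod.ext h.1 ?_
    exact congrArg Fin.val h.2

theorem code_nxt {φ : F3} (hb : Bounded3 φ) (x : Ps (3 * φ.length) φ.length) :
    code (nxt (litF φ hb) x) = match x with
      | .inl (i, b, j) => nxtL φ i b j
      | .inr (j, p) => l4 (litL φ j p).2 (litL φ j p).1 (j + 1) false := by
  rcases x with ⟨i, b, j⟩ | ⟨j, p⟩
  · simp only [nxt, nxtL]
    by_cases hj : (j : ℕ) < φ.length
    · rw [dif_pos hj, if_pos hj]
      have e0 := litL_eq_iff hb ⟨j, hj⟩ 0 b i
      have e1 := litL_eq_iff hb ⟨j, hj⟩ 1 b i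
      have e2 := litL_eq_iff hb ⟨j, hj⟩ 2 b i
      simp only [Fin.val_zero, Fin.val_one, Fin.val_two] at e0 e1 e2
      unfold occ
      by_cases h0 : litL φ j 0 = (b, (i : ℕ))
      · rw [if_pos h0, if_pos (e0.1 h0)]
        rfl
      · rw [if_neg h0, if_neg (fun h => h0 (e0.2 h))]
        by_cases h1 : litL φ j 1 = (b, (i : ℕ))
        · rw [if_pos h1, if_pos (e1.1 h1)]
          rfl
        · rw [if_neg h1, if_neg (fun h => h1 (e1.2 h))]
          by_cases h2 : litL φ j 2 = (b, (i : ℕ))
          · rw [if_pos h2, if_pos (e2.1 h2)]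
            rfl
          · rw [if_neg h2, if_neg (fun h => h2 (e2.2 h))]
            rfl
    · rw [dif_neg hj, if_neg hj]
      rfl
  · simp only [nxt]
    rfl

theorem code_outL {φ : F3} (hb : Bounded3 φ) (u : Nd (3 * φ.length) φ.length) :
    outLab φ (code u) = (outL (litF φ hb) u).map code := by
  rcases u with _ | _ | _ | i | ⟨x, c⟩
  · rfl
  · rfl
  · rfl
  · simp only [code, la, outLab, outL]
    by_cases h : (i : ℕ) < 3 * φ.length
    · simp [h]
      constructor <;> rfl
    · simp [h]
      constructor <;> rfl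
  · cases c with
    | false =>
      rcases x with ⟨i, b, j⟩ | ⟨j, p⟩
      · simp [code, l4, outLab, outL, sg]
      · simp [code, l5, outLab, outL, sg]
        rw [Fin.val_add]
        rfl
    | true =>
      simp only [outL, List.map_cons, List.map_nil, code_nxt]
      rcases x with ⟨i, b, j⟩ | ⟨j, p⟩
      · simp [code, l4, outLab, sr]
      · simp [code, l5, outLab, sr]
        rw [Fin.val_add]
        rfl

theorem adL_iff {φ : F3} (hb : Bounded3 φ) (u v : Nd (3 * φ.length) φ.length) :
    adL φ (code u) (code v) = true ↔ Dr (litF φ hb) u v := by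
  unfold adL Dr
  have hz : ∀ u : Nd (3 * φ.length) φ.length, (code u).1 = 0 ↔ u = .s := by
    intro u
    rcases u with _ | _ | _ | i | ⟨⟨i, b, j⟩ | ⟨j, p⟩, c⟩ <;> simp [code, ls, lw, lt, la, l4, l5]
  by_cases h : u = .s
  · rw [if_pos ((hz u).2 h), if_pos h]
    simp [hz v]
  · rw [if_neg (fun h' => h ((hz u).1 h')), if_neg h, decide_eq_true_eq, code_outL hb,
      List.mem_map_of_injective code_inj]

theorem redL_iff {φ : F3} (hd : Distinct3 φ) (hb : Bounded3 φ) (hne : φ ≠ []) :
    SAT3 φ ↔ AntistrongStrong (redL φ) := by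
  have hlen : 0 < φ.length := List.length_pos_iff.2 hne
  have hinj : ∀ j p p', litF φ hb j p = litF φ hb j p' → p = p' := by
    intro j p p' h
    have h1 := congrArg (fun z => (z.2 : ℕ)) h
    simp only [litF] at h1
    obtain ⟨h2, h3, h4⟩ := hd _ (List.getElem_mem j.2)
    unfold litL at h1
    rw [List.getD_eq_getElem _ _ j.2] at h1
    fin_cases p <;> fin_cases p' <;> simp at h1 ⊢
    · exact h2 h1
    · exact h3 h1
    · exact h2 h1.symm
    · exact h4 h1
    · exact h3 h1.symm
    · exact h4 h1.symm
  have h1 : SAT3 φ ↔ ∃ τ : Fin (3 * φ.length) → Bool, ∀ j, ∃ p,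
      τ (litF φ hb j p).2 = (litF φ hb j p).1 := by
    constructor
    · rintro ⟨τ, hτ⟩
      refine ⟨fun i => τ i, fun j => ?_⟩
      have := hτ _ (List.getElem_mem j.2)
      rcases this with h | h | h
      · refine ⟨0, ?_⟩
        simp only [litF, litL, List.getD_eq_getElem _ _ j.2]
        exact h
      · refine ⟨1, ?_⟩
        simp only [litF, litL, List.getD_eq_getElem _ _ j.2]
        exact h
      · refine ⟨2, ?_⟩
        simp only [litF, litL, List.getD_eq_getElem _ _ j.2]
        exact h
    · rintro ⟨τ, hτ⟩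
      refine ⟨fun i => if h : i < 3 * φ.length then τ ⟨i, h⟩ else false, ?_⟩
      intro c hc
      obtain ⟨j, hj, rfl⟩ := List.getElem_of_mem hc
      obtain ⟨p, hp⟩ := hτ ⟨j, hj⟩
      obtain ⟨b0, b1, b2⟩ := hb _ (List.getElem_mem hj)
      simp only [litF, litL, List.getD_eq_getElem _ _ hj] at hp
      fin_cases p
      · left
        simp only [b0, dite_true]
        exact hp
      · right; left
        simp only [b1, dite_true]
        exact hp
      · right; right
        simp only [b2, dite_true]
        exact hp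
  rw [h1, ← pair_iff (by omega) hinj]
  obtain ⟨e, he⟩ := R671.exists_equiv (vsL φ) (nodup_vsL φ) (code : Nd (3 * φ.length) φ.length → Lb)
    code_inj (fun z => ⟨mem_vsL, by rintro ⟨u, rfl⟩; exact code_mem u⟩)
  have hl : (redL φ).length = (vsL φ).length := by simp [redL]
  let e' : Fin (redL φ).length ≃ Nd (3 * φ.length) φ.length := (finCongr hl).trans e
  have hadj : ∀ u v : Fin (redL φ).length, dg (redL φ) u v ↔ Dr (litF φ hb) (e' u) (e' v) := by
    intro u v
    have hu : (u : ℕ) < (vsL φ).length := hl ▸ u.2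
    have hv : (v : ℕ) < (vsL φ).length := hl ▸ v.2
    have h2 : ((redL φ).getD u []).getD v false = adL φ (code (e' u)) (code (e' v)) := by
      have eu : code (e' u) = (vsL φ)[(u : ℕ)] := he _
      have ev : code (e' v) = (vsL φ)[(v : ℕ)] := he _
      rw [eu, ev]
      have e1 : ∀ k (hk : k < (vsL φ).length),
          (redL φ).getD k [] = (vsL φ).map fun v => adL φ (vsL φ)[k] v := by
        intro k hk
        unfold redL
        rw [List.getD_eq_getElem _ _ (by rw [List.length_map]; exact hk), List.getElem_map]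
      rw [e1 _ hu, List.getD_eq_getElem _ _ (by rw [List.length_map]; exact hv), List.getElem_map]
    unfold dg
    rw [h2, adL_iff hb]
    constructor
    · exact fun h => h.2
    · intro h
      refine ⟨?_, h⟩
      rintro rfl
      generalize e' u = z at h
      rcases z with _ | _ | _ | i | ⟨x, c⟩
      · simp [Dr] at h
      · simp [Dr, outL] at h
      · simp [Dr, outL] at h
      · simp only [Dr, reduceCtorEq, if_false, outL] at h
        split_ifs at h with h3
        · simp at h
        · simp only [List.mem_cons, reduceCtorEq, Nd.a.injEq, List.not_mem_nil, or_false,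
            false_or] at h
          apply h3
          rw [h]
          simp
          omega
      · cases c
        · simp only [Dr, reduceCtorEq, if_false, outL, List.mem_cons, Nd.q.injEq, and_true,
            List.not_mem_nil, or_false, and_false, false_or] at h
          exact sg_ne x h.symm
        · simp only [Dr, reduceCtorEq, if_false, outL, List.mem_cons, Nd.q.injEq, and_true,
            List.not_mem_nil, or_false] at h
          rcases h with h | h
          · have h5 := sg_ne x
            rw [h] at h5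
            rw [sg_sr] at h5
            exact h5 h
          · exact nxt_ne _ _ h.symm
  constructor
  · exact hasPair_equiv e'.symm (fun u v => by rw [hadj]; simp)
  · exact hasPair_equiv e' hadj

theorem hardPr_main : HardPr (fun _ : List (List Bool) => True) AntistrongStrong :=
  hardPr_SAT3b.trans poly_redL (fun _ _ => trivial) (fun _ h => redL_iff h.1 h.2.1 h.2.2)

theorem npHard_main : NPHardP AntistrongStrong := hardPr_main.toHardI.toNPHardP

end Pool.Agent.K1H71.AS
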