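import Pool.Agent.K1H71.AS.Inst
import Pool.Agent.NPC.Dec

/-!
# Membership in NP
-/

namespace Pool.Agent.K1H71.AS

open Relation Finset Pool.Agent.NPC

/-- every member of the list but the first one comes from an earlier one -/
def OrdL {α : Type} (R : α → α → Prop) (d : α) (L : List α) : Prop :=
  ∀ k ∈ List.range L.length, k = 0 ∨ ∃ l ∈ List.range L.length, l < k ∧ R (L.getD l d) (L.getD k d)

theorem pp_ordL {γ α : Type} [TEnc γ] [TEnc α] {R : γ → α → α → Prop} {d : α} {L : γ → List α}
    (hL : Poly L) (hR : PP (fun x : γ × (α × α) => R x.1 x.2.1 x.2.2)) :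
    PP (fun c => OrdL (R c) d (L c)) := by
  unfold OrdL
  refine PP.ball (l := fun c => List.range (L c).length) (r := fun c k =>
    k = 0 ∨ ∃ l ∈ List.range (L c).length, l < k ∧ R c ((L c).getD l d) ((L c).getD k d))
    (NPC.Poly.range_length hL) ?_
  refine PP.or (PP.eq (by fun_prop) (by fun_prop)) ?_
  refine PP.bex (l := fun x : γ × ℕ => List.range (L x.1).length) (r := fun x l =>
    l < x.2 ∧ R x.1 ((L x.1).getD l d) ((L x.1).getD x.2 d))
    (NPC.Poly.range_length (hL.comp (NPC.Poly.fst NPC.Poly.id))) ?_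
  refine PP.and (PP.lt (by fun_prop) (by fun_prop)) ?_
  exact PP.comp hR (f := fun x : (γ × ℕ) × ℕ => (x.1.1, ((L x.1.1).getD x.2 d,
    (L x.1.1).getD x.1.2 d))) (by fun_prop)

theorem ordL_reach {α : Type} {R : α → α → Prop} {d r : α} {L : List α} (hr : L.head? = some r)
    (h : OrdL R d L) : ∀ v ∈ L, ReflTransGen R r v := by
  have key : ∀ k : ℕ, k < L.length → ReflTransGen R r (L.getD k d) := by
    intro k
    induction k using Nat.strong_induction_on with
    | _ k ih =>
      intro hk
      rcases h k (List.mem_range.2 hk) with h0 | ⟨l, -, hl, hR⟩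
      · subst h0
        have : L.getD 0 d = r := by
          rw [List.head?_eq_getElem?] at hr
          simp [List.getD, hr]
        rw [this]
      · exact (ih l hl (by omega)).tail hR
  intro v hv
  obtain ⟨k, hk, rfl⟩ := List.getElem_of_mem hv
  have := key k hk
  rwa [List.getD_eq_getElem _ _ hk] at this

theorem exists_ord {V : Type} [Fintype V] {R : V → V → Prop} (r : V)
    (h : ∀ v, ReflTransGen R r v) : ∃ L : List V, L.head? = some r ∧ L.Nodup ∧ (∀ v, v ∈ L) ∧
      OrdL R r L := by
  classical
  have key : ∀ n (L : List V), Fintype.card V - L.length = n → L.head? = some r → L.Nodup →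
      OrdL R r L → ∃ L : List V, L.head? = some r ∧ L.Nodup ∧ (∀ v, v ∈ L) ∧ OrdL R r L := by
    intro n
    induction n with
    | zero =>
      intro L hn hr hnd ho
      refine ⟨L, hr, hnd, ?_, ho⟩
      have h1 : L.toFinset.card = L.length := List.toFinset_card_of_nodup hnd
      have h2 : L.toFinset = univ := by
        apply Finset.eq_univ_of_card
        have := Finset.card_le_univ L.toFinset
        omega
      intro v
      rw [← List.mem_toFinset, h2]
      exact mem_univ v
    | succ n ih =>
      intro L hn hr hnd ho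
      by_cases hall : ∀ v, v ∈ L
      · exact ⟨L, hr, hnd, hall, ho⟩
      · push Not at hall
        obtain ⟨v, hv⟩ := hall
        have hex : ∃ u ∈ L, ∃ w ∉ L, R u w := by
          by_contra hcon
          push Not at hcon
          apply hv
          have hrl : r ∈ L := List.mem_of_head? hr
          have hrv := h v
          clear hv
          induction hrv with
          | refl => exact hrl
          | tail _ h2 ih2 =>
            by_contra hw
            exact hcon _ ih2 _ hw h2
        obtain ⟨u, hu, w, hw, huw⟩ := hex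
        obtain ⟨i, hi, rfl⟩ := List.getElem_of_mem hu
        refine ih (L ++ [w]) ?_ ?_ ?_ ?_
        · rw [List.length_append]
          simp
          omega
        · rw [List.head?_append, hr]
          rfl
        · rw [List.nodup_append]
          refine ⟨hnd, by simp, ?_⟩
          intro a ha b hb
          rw [List.mem_singleton] at hb
          subst hb
          rintro rfl
          exact hw ha
        · intro k hk
          rw [List.mem_range, List.length_append, List.length_singleton] at hk
          by_cases hkl : k < L.length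
          · rcases ho k (List.mem_range.2 hkl) with h0 | ⟨l, hl, hlk, hR⟩
            · exact Or.inl h0
            · right
              rw [List.mem_range] at hl
              refine ⟨l, ?_, hlk, ?_⟩
              · rw [List.mem_range, List.length_append]; omega
              · rw [List.getD_append _ _ _ _ hl, List.getD_append _ _ _ _ hkl]
                exact hR
          · right
            have hk' : k = L.length := by omega
            subst hk'
            refine ⟨i, ?_, hi, ?_⟩
            · rw [List.mem_range, List.length_append]; omega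
            · rw [List.getD_append _ _ _ _ hi, List.getD_append_right _ _ _ _ le_rfl,
                List.getD_eq_getElem _ _ hi]
              simpa using huw
  refine key _ [r] rfl rfl (by simp) ?_
  intro k hk
  left
  simpa using hk

/-- certificates: the arcs of the two subdigraphs and three orders -/
abbrev Crt : Type :=
  (List (ℕ × ℕ) × List (ℕ × ℕ)) × (List (ℕ × Bool) × (List ℕ × List ℕ))

/-- the arcs are in the digraph -/
def InD (M : List (List Bool)) (e : ℕ × ℕ) : Prop :=
  e.1 < M.length ∧ e.2 < M.length ∧ e.1 ≠ e.2 ∧ (M.getD e.1 []).getD e.2 false = true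

/-- adjacency in the bipartite representation -/
def adB (D : List (ℕ × ℕ)) (x y : ℕ × Bool) : Prop :=
  (x.2 = true ∧ y.2 = false ∧ (x.1, y.1) ∈ D) ∨ (x.2 = false ∧ y.2 = true ∧ (y.1, x.1) ∈ D)

/-- the test -/
def Ver (M : List (List Bool)) (c : Crt) : Prop :=
  3 ≤ M.length ∧ (∀ e ∈ c.1.1, InD M e) ∧ (∀ e ∈ c.1.2, InD M e) ∧ (∀ e ∈ c.1.1, e ∉ c.1.2) ∧
  (∀ z ∈ c.2.1, z.1 < M.length) ∧ (∀ x ∈ List.range M.length, (x, true) ∈ c.2.1 ∧
    (x, false) ∈ c.2.1) ∧ OrdL (adB c.1.1) (0, false) c.2.1 ∧
  (∀ z ∈ c.2.2.1, z < M.length) ∧ (∀ x ∈ List.range M.length, x ∈ c.2.2.1) ∧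
  OrdL (fun x y => (x, y) ∈ c.1.2) 0 c.2.2.1 ∧
  (∀ z ∈ c.2.2.2, z < M.length) ∧ (∀ x ∈ List.range M.length, x ∈ c.2.2.2) ∧
  OrdL (fun x y => (y, x) ∈ c.1.2) 0 c.2.2.2 ∧ c.2.2.1.head? = c.2.2.2.head?

theorem pp_ver : PP (fun x : List (List Bool) × Crt => Ver x.1 x.2) := by
  have hI : PP (fun x : (List (List Bool) × Crt) × (ℕ × ℕ) => InD x.1.1 x.2) := by
    unfold InD
    exact PP.and (PP.lt (by fun_prop) (by fun_prop)) (PP.and (PP.lt (by fun_prop) (by fun_prop))
      (PP.and (PP.ne (by fun_prop) (by fun_prop)) (PP.bool (by fun_prop))))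
  unfold Ver
  refine PP.and (PP.le (by fun_prop) (by fun_prop)) (PP.and (PP.ball (by fun_prop) hI)
    (PP.and (PP.ball (by fun_prop) hI) (PP.and ?_ (PP.and ?_ (PP.and ?_ (PP.and ?_ (PP.and ?_
    (PP.and ?_ (PP.and ?_ (PP.and ?_ (PP.and ?_ (PP.and ?_ (PP.eq (by fun_prop)
      (by fun_prop))))))))))))))
  · exact PP.ball (r := fun (x : List (List Bool) × Crt) e => e ∉ x.2.1.2) (by fun_prop)
      (PP.not (PP.mem (by fun_prop) (by fun_prop)))
  · exact PP.ball (l := fun x : List (List Bool) × Crt => x.2.2.1)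
      (r := fun (x : List (List Bool) × Crt) (z : ℕ × Bool) => z.1 < x.1.length) (by fun_prop)
      (PP.lt (by fun_prop) (by fun_prop))
  · exact PP.ball (l := fun x : List (List Bool) × Crt => List.range x.1.length)
      (r := fun (x : List (List Bool) × Crt) z => (z, true) ∈ x.2.2.1 ∧ (z, false) ∈ x.2.2.1)
      (NPC.Poly.range_length (by fun_prop))
      (PP.and (PP.mem (by fun_prop) (by fun_prop)) (PP.mem (by fun_prop) (by fun_prop)))
  · refine pp_ordL (R := fun (x : List (List Bool) × Crt) => adB x.2.1.1) (by fun_prop) ?_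
    unfold adB
    exact PP.or (PP.and (PP.bool (by fun_prop)) (PP.and (PP.eq (by fun_prop) (by fun_prop))
      (PP.mem (by fun_prop) (by fun_prop)))) (PP.and (PP.eq (by fun_prop) (by fun_prop))
      (PP.and (PP.bool (by fun_prop)) (PP.mem (by fun_prop) (by fun_prop))))
  · exact PP.ball (r := fun (x : List (List Bool) × Crt) z => z < x.1.length) (by fun_prop)
      (PP.lt (by fun_prop) (by fun_prop))
  · exact PP.ball (l := fun x : List (List Bool) × Crt => List.range x.1.length)
      (r := fun (x : List (List Bool) × Crt) z => z ∈ x.2.2.2.1)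
      (NPC.Poly.range_length (by fun_prop)) (PP.mem (by fun_prop) (by fun_prop))
  · exact pp_ordL (R := fun (x : List (List Bool) × Crt) a b => (a, b) ∈ x.2.1.2) (by fun_prop)
      (PP.mem (by fun_prop) (by fun_prop))
  · exact PP.ball (r := fun (x : List (List Bool) × Crt) z => z < x.1.length) (by fun_prop)
      (PP.lt (by fun_prop) (by fun_prop))
  · exact PP.ball (l := fun x : List (List Bool) × Crt => List.range x.1.length)
      (r := fun (x : List (List Bool) × Crt) z => z ∈ x.2.2.2.2)
      (NPC.Poly.range_length (by fun_prop)) (PP.mem (by fun_prop) (by fun_prop))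
  · exact pp_ordL (R := fun (x : List (List Bool) × Crt) a b => (b, a) ∈ x.2.1.2) (by fun_prop)
      (PP.mem (by fun_prop) (by fun_prop))

theorem fin_reach {N : ℕ} {R : ℕ → ℕ → Prop} (hR : ∀ x y, R x y → x < N ∧ y < N) {r v : ℕ}
    (h : ReflTransGen R r v) (hr : r < N) (hv : v < N) :
    ReflTransGen (fun x y : Fin N => R x y) ⟨r, hr⟩ ⟨v, hv⟩ := by
  induction h with
  | refl => exact ReflTransGen.refl
  | tail h1 h2 ih => exact (ih (hR _ _ h2).1).tail h2

theorem pair_of_ver {M : List (List Bool)} {c : Crt} (h : Ver M c) : AntistrongStrong M := by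
  obtain ⟨h3, hD1, hD2, hdis, hz, hB, hoB, hO, hOa, hoO, hI, hIa, hoI, hhead⟩ := h
  have h0 : 0 < M.length := by omega
  refine ⟨fun x y => ((x : ℕ), (y : ℕ)) ∈ c.1.1, fun x y => ((x : ℕ), (y : ℕ)) ∈ c.1.2, ?_, ?_, ?_,
    ⟨?_, ?_⟩, ?_⟩
  · intro x y hxy
    obtain ⟨-, -, h5, h6⟩ := hD1 _ hxy
    exact ⟨fun e => h5 (congrArg Fin.val e), h6⟩
  · intro x y hxy
    obtain ⟨-, -, h5, h6⟩ := hD2 _ hxy
    exact ⟨fun e => h5 (congrArg Fin.val e), h6⟩
  · exact fun x y hxy => hdis _ hxy.1 hxy.2
  · rw [Fintype.card_fin]; exact h3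
  · intro x y _
    apply exists_trail
    set G := BG (fun x y : Fin M.length => ((x : ℕ), (y : ℕ)) ∈ c.1.1) with hG
    -- the root
    have hne : c.2.1 ≠ [] := by
      intro h
      have := (hB 0 (List.mem_range.2 h0)).1
      rw [h] at this
      simp at this
    obtain ⟨r, hr⟩ : ∃ r, c.2.1.head? = some r := ⟨_, List.head?_eq_some_head hne⟩
    have hreach := ordL_reach hr hoB
    let nn : (z : ℕ × Bool) → z.1 < M.length → Fin M.length ⊕ Fin M.length :=
      fun z hz => if z.2 then .inl ⟨z.1, hz⟩ else .inr ⟨z.1, hz⟩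
    have hstep : ∀ z z' (hz : z.1 < M.length) (hz' : z'.1 < M.length), adB c.1.1 z z' →
        G.Adj (nn z hz) (nn z' hz') := by
      rintro ⟨z, b⟩ ⟨z', b'⟩ hz hz' (⟨e1, e2, e3⟩ | ⟨e1, e2, e3⟩)
      · simp only at e1 e2; subst e1 e2; exact e3
      · simp only at e1 e2; subst e1 e2; exact e3
    have hrl : r.1 < M.length := hz r (List.mem_of_head? hr)
    have hall : ∀ v, ReflTransGen (adB c.1.1) r v → ∀ hv : v.1 < M.length,
        G.Reachable (nn r hrl) (nn v hv) := by
      intro v hv
      induction hv with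
      | refl => intro _; exact SimpleGraph.Reachable.refl _
      | @tail u v h1 h2 ih =>
        intro hv
        have hu : u.1 < M.length := by
          rcases h2 with ⟨-, -, h⟩ | ⟨-, -, h⟩
          · exact (hD1 _ h).1
          · exact (hD1 _ h).2.1
        exact (ih hu).trans (hstep _ _ hu hv h2).reachable
    have hfin : ∀ a : Fin M.length ⊕ Fin M.length, G.Reachable (nn r hrl) a := by
      rintro (a | a)
      · exact hall (a, true) (hreach _ (hB a (List.mem_range.2 a.2)).1) a.2
      · exact hall (a, false) (hreach _ (hB a (List.mem_range.2 a.2)).2) a.2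
    have hne' : Nonempty (Fin M.length ⊕ Fin M.length) := ⟨.inl ⟨0, h0⟩⟩
    exact SimpleGraph.Connected.mk fun a b => (hfin a).symm.trans (hfin b)
  · have hneO : c.2.2.1 ≠ [] := by
      intro h
      have := hOa 0 (List.mem_range.2 h0)
      rw [h] at this
      simp at this
    obtain ⟨r, hr⟩ : ∃ r, c.2.2.1.head? = some r := ⟨_, List.head?_eq_some_head hneO⟩
    have hr' : c.2.2.2.head? = some r := by rw [← hhead]; exact hr
    have hrl : r < M.length := hO r (List.mem_of_head? hr)
    have e1 := ordL_reach hr hoO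
    have e2 := ordL_reach hr' hoI
    have f1 : ∀ v : Fin M.length, ReflTransGen
        (fun x y : Fin M.length => ((x : ℕ), (y : ℕ)) ∈ c.1.2) ⟨r, hrl⟩ v := by
      intro v
      exact fin_reach (R := fun x y => (x, y) ∈ c.1.2)
        (fun x y hxy => ⟨(hD2 _ hxy).1, (hD2 _ hxy).2.1⟩)
        (e1 v (hOa v (List.mem_range.2 v.2))) hrl v.2
    have f2 : ∀ v : Fin M.length, ReflTransGen
        (fun x y : Fin M.length => ((x : ℕ), (y : ℕ)) ∈ c.1.2) v ⟨r, hrl⟩ := by
      intro v
      have := fin_reach (R := fun x y => (y, x) ∈ c.1.2)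
        (fun x y hxy => ⟨(hD2 _ hxy).2.1, (hD2 _ hxy).1⟩)
        (e2 v (hIa v (List.mem_range.2 v.2))) hrl v.2
      rw [← reflTransGen_swap] at this
      exact this
    intro x y
    exact (f2 x).trans (f1 y)

theorem ordL_map {α β : Type} {R : α → α → Prop} {R' : β → β → Prop} {d : α} {d' : β}
    (g : α → β) (hg : ∀ a b, R a b → R' (g a) (g b)) {L : List α} (h : OrdL R d L) :
    OrdL R' d' (L.map g) := by
  intro k hk
  rw [List.length_map, List.mem_range] at hk
  rcases h k (List.mem_range.2 hk) with h0 | ⟨l, hl, hlk, hR⟩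
  · exact Or.inl h0
  · rw [List.mem_range] at hl
    refine Or.inr ⟨l, by rw [List.length_map, List.mem_range]; exact hl, hlk, ?_⟩
    rw [List.getD_eq_getElem _ _ (by rw [List.length_map]; exact hl),
      List.getD_eq_getElem _ _ (by rw [List.length_map]; exact hk), List.getElem_map,
      List.getElem_map]
    rw [List.getD_eq_getElem _ _ hl, List.getD_eq_getElem _ _ hk] at hR
    exact hg _ _ hR

theorem sz_nat_le' {n N : ℕ} (h : n < N) : sz n ≤ 4 * N + 1 := by
  have h1 := sz_nat_le n
  have h2 : n.size ≤ n := Nat.size_le.2 Nat.lt_two_pow_self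
  omega

open Classical in
/-- the list of the arcs of a digraph -/
noncomputable def arcsL {N : ℕ} (A : Fin N → Fin N → Prop) : List (ℕ × ℕ) :=
  ((List.finRange N ×ˢ List.finRange N).filter (fun e => decide (A e.1 e.2))).map
    (fun e => ((e.1 : ℕ), (e.2 : ℕ)))

theorem mem_arcsL {N : ℕ} {A : Fin N → Fin N → Prop} {x y : Fin N} :
    ((x : ℕ), (y : ℕ)) ∈ arcsL A ↔ A x y := by
  classical
  unfold arcsL
  rw [List.mem_map]
  constructor
  · rintro ⟨⟨a, b⟩, h, he⟩
    rw [List.mem_filter] at h
    simp only [Prod.mk.injEq] at he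
    rw [← Fin.ext he.1, ← Fin.ext he.2]
    simpa using h.2
  · intro h
    refine ⟨(x, y), ?_, rfl⟩
    rw [List.mem_filter]
    refine ⟨?_, by simpa using h⟩
    exact List.pair_mem_product.2 ⟨List.mem_finRange _, List.mem_finRange _⟩

theorem of_mem_arcsL {N : ℕ} {A : Fin N → Fin N → Prop} {e : ℕ × ℕ} (h : e ∈ arcsL A) :
    ∃ x y : Fin N, e = ((x : ℕ), (y : ℕ)) ∧ A x y := by
  have h' := h
  unfold arcsL at h
  rw [List.mem_map] at h
  obtain ⟨⟨a, b⟩, -, rfl⟩ := h
  exact ⟨a, b, rfl, mem_arcsL.1 h'⟩

theorem sz_arcsL {N : ℕ} (A : Fin N → Fin N → Prop) : sz (arcsL A) ≤ N * N * (8 * N + 4) + 1 := by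
  classical
  have h1 : (arcsL A).length ≤ N * N := by
    unfold arcsL
    rw [List.length_map]
    refine (List.length_filter_le _ _).trans ?_
    rw [List.length_product, List.length_finRange]
  refine (sz_le_length_mul (arcsL A) (8 * N + 3) ?_).trans ?_
  · intro e he
    obtain ⟨x, y, rfl, -⟩ := of_mem_arcsL he
    rw [sz_pair]
    have := sz_nat_le' x.2
    have := sz_nat_le' y.2
    omega
  · have := Nat.mul_le_mul_right (8 * N + 4) h1
    linarith

theorem rtg_of_walk {V : Type} {G : SimpleGraph V} {a b : V} (w : G.Walk a b) :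
    ReflTransGen G.Adj a b := by
  induction w with
  | nil => exact ReflTransGen.refl
  | cons h _ ih => exact ReflTransGen.head h ih

theorem ver_of_pair {M : List (List Bool)} (h : AntistrongStrong M) :
    ∃ c : Crt, sz c ≤ 100 * sz M ^ 3 + 100 ∧ Ver M c := by
  classical
  obtain ⟨A1, A2, h1, h2, hd, ha, hs⟩ := h
  have hN : 3 ≤ M.length := by have := ha.1; rwa [Fintype.card_fin] at this
  have h0 : 0 < M.length := by omega
  have hc := connected_of_antistrong ha
  let r0 : Fin M.length := ⟨0, h0⟩
  obtain ⟨LB, hB1, hB2, hB3, hB4⟩ := exists_ord (R := (BG A1).Adj) (Sum.inl r0) (fun v => by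
    obtain ⟨w⟩ := hc.preconnected (Sum.inl r0) v
    exact rtg_of_walk w)
  obtain ⟨LO, hO1, hO2, hO3, hO4⟩ := exists_ord (R := A2) r0 (fun v => hs r0 v)
  obtain ⟨LI, hI1, hI2, hI3, hI4⟩ := exists_ord (R := Function.swap A2) r0 (fun v => by
    rw [reflTransGen_swap]
    exact hs v r0)
  let g : Fin M.length ⊕ Fin M.length → ℕ × Bool := Sum.elim (fun x => (x, true)) (fun x => (x, false))
  refine ⟨((arcsL A1, arcsL A2), (LB.map g, (LO.map Fin.val, LI.map Fin.val))), ?_, ?_⟩
  · have s1 := sz_arcsL A1
    have s2 := sz_arcsL A2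
    have s3 : sz (LB.map g) ≤ 2 * M.length * (4 * M.length + 6) + 1 := by
      refine (sz_le_length_mul _ (4 * M.length + 5) ?_).trans ?_
      · intro a ha
        rw [List.mem_map] at ha
        obtain ⟨z, -, rfl⟩ := ha
        rcases z with z | z
        · change sz ((z : ℕ), true) ≤ _
          rw [sz_pair]
          have := sz_nat_le' z.2
          have := sz_bool_le true
          omega
        · change sz ((z : ℕ), false) ≤ _
          rw [sz_pair]
          have := sz_nat_le' z.2
          have := sz_bool_le false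
          omega
      · have hl : LB.length ≤ 2 * M.length := by
          have := List.Nodup.length_le_card hB2
          rw [Fintype.card_sum, Fintype.card_fin] at this
          omega
        rw [List.length_map]
        have := Nat.mul_le_mul_right (4 * M.length + 6) hl
        linarith
    have s4 : ∀ L : List (Fin M.length), L.Nodup →
        sz (L.map Fin.val) ≤ M.length * (4 * M.length + 2) + 1 := by
      intro L hL
      refine (sz_le_length_mul _ (4 * M.length + 1) ?_).trans ?_
      · intro a ha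
        rw [List.mem_map] at ha
        obtain ⟨z, -, rfl⟩ := ha
        exact sz_nat_le' z.2
      · have hl : L.length ≤ M.length := by
          have := List.Nodup.length_le_card hL
          rwa [Fintype.card_fin] at this
        rw [List.length_map]
        have := Nat.mul_le_mul_right (4 * M.length + 2) hl
        linarith
    have s5 := s4 LO hO2
    have s6 := s4 LI hI2
    have hlt := length_lt_sz M
    simp only [sz_pair]
    have hS : M.length ≤ sz M := hlt.le
    have e3 : M.length ^ 3 ≤ sz M ^ 3 := Nat.pow_le_pow_left hS 3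
    have e2 : M.length ^ 2 ≤ M.length ^ 3 := Nat.pow_le_pow_right h0 (by omega)
    have e1 : M.length ≤ M.length ^ 3 := by
      calc M.length = M.length ^ 1 := (pow_one _).symm
        _ ≤ M.length ^ 3 := Nat.pow_le_pow_right h0 (by omega)
    nlinarith
  · refine ⟨hN, ?_, ?_, ?_, ?_, ?_, ?_, ?_, ?_, ?_, ?_, ?_, ?_, ?_⟩
    · intro e he
      obtain ⟨x, y, rfl, hxy⟩ := of_mem_arcsL he
      obtain ⟨e1, e2⟩ := h1 _ _ hxy
      exact ⟨x.2, y.2, fun e => e1 (Fin.ext e), e2⟩
    · intro e he
      obtain ⟨x, y, rfl, hxy⟩ := of_mem_arcsL he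
      obtain ⟨e1, e2⟩ := h2 _ _ hxy
      exact ⟨x.2, y.2, fun e => e1 (Fin.ext e), e2⟩
    · intro e he he'
      obtain ⟨x, y, rfl, hxy⟩ := of_mem_arcsL he
      exact hd _ _ ⟨hxy, mem_arcsL.1 he'⟩
    · intro z hz
      rw [List.mem_map] at hz
      obtain ⟨z, -, rfl⟩ := hz
      rcases z with z | z
      · exact z.2
      · exact z.2
    · intro x hx
      rw [List.mem_range] at hx
      exact ⟨List.mem_map.2 ⟨.inl ⟨x, hx⟩, hB3 _, rfl⟩, List.mem_map.2 ⟨.inr ⟨x, hx⟩, hB3 _, rfl⟩⟩
    · refine ordL_map g ?_ hB4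
      rintro (a | a) (b | b) hab
      · exact absurd hab id
      · exact Or.inl ⟨rfl, rfl, mem_arcsL.2 hab⟩
      · exact Or.inr ⟨rfl, rfl, mem_arcsL.2 hab⟩
      · exact absurd hab id
    · intro z hz
      rw [List.mem_map] at hz
      obtain ⟨z, -, rfl⟩ := hz
      exact z.2
    · intro x hx
      rw [List.mem_range] at hx
      exact List.mem_map.2 ⟨⟨x, hx⟩, hO3 _, rfl⟩
    · exact ordL_map Fin.val (fun a b hab => mem_arcsL.2 hab) hO4
    · intro z hz
      rw [List.mem_map] at hz
      obtain ⟨z, -, rfl⟩ := hz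
      exact z.2
    · intro x hx
      rw [List.mem_range] at hx
      exact List.mem_map.2 ⟨⟨x, hx⟩, hI3 _, rfl⟩
    · exact ordL_map Fin.val (fun a b hab => mem_arcsL.2 (show A2 b a from hab)) hI4
    · rw [List.head?_map, List.head?_map, hO1, hI1]

theorem inNP_main : InNPP AntistrongStrong := by
  obtain ⟨b, hb, hb'⟩ := pp_ver
  refine inNPP_of (R := b) hb (100 * Polynomial.X ^ 3 + 100) fun M => ?_
  constructor
  · intro h
    obtain ⟨c, hc, hv⟩ := ver_of_pair h
    refine ⟨c, ?_, (hb' _).2 hv⟩
    simpa using hc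
  · rintro ⟨c, -, hc⟩
    exact pair_of_ver ((hb' _).1 hc)

end Pool.Agent.K1H71.AS
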