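import Pool.Agent.K1H71.AS.Base

/-!
# The digraph of a formula
-/

namespace Pool.Agent.K1H71.AS

open Relation Finset

theorem tight {V : Type} [Fintype V] {A A1 A2 : V → V → Prop}
    [DecidableEq V] [DecidableRel A]
    (hcard : (univ.filter (fun e : V × V => A e.1 e.2)).card + 1 ≤ 3 * Fintype.card V)
    (h1 : ∀ x y, A1 x y → A x y) (h2 : ∀ x y, A2 x y → A x y)
    (hd : ∀ x y, ¬ (A1 x y ∧ A2 x y)) (ha : Antistrong A1) (hs : Strong A2) :
    ∃ f : V → V, Function.Bijective f ∧ ∀ u v, A2 u v ↔ f u = v := by
  classical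
  have hN : 3 ≤ Fintype.card V := ha.1
  have c1 := card_arcs_of_connected (connected_of_antistrong ha)
  have hne : ∀ v : V, ∃ y, y ≠ v := by
    intro v
    by_contra hcon
    push Not at hcon
    have : Fintype.card V ≤ 1 := Fintype.card_le_one_iff.2 fun a b => by rw [hcon a, hcon b]
    omega
  have hout : ∀ v, ∃ y, A2 v y := by
    intro v
    obtain ⟨y, hy⟩ := hne v
    rcases (hs v y).cases_head with h | ⟨c, hc, -⟩
    · exact absurd h.symm hy
    · exact ⟨c, hc⟩
  have hin : ∀ v, ∃ y, A2 y v := by
    intro v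
    obtain ⟨y, hy⟩ := hne v
    rcases (hs y v).cases_tail with h | ⟨c, -, hc⟩
    · exact absurd h.symm hy
    · exact ⟨c, hc⟩
  choose f hf using hout
  have c2 : (univ.filter (fun e : V × V => A2 e.1 e.2)).card ≤ Fintype.card V := by
    have hdis : Disjoint (univ.filter (fun e : V × V => A1 e.1 e.2))
        (univ.filter (fun e : V × V => A2 e.1 e.2)) := by
      rw [Finset.disjoint_left]
      intro e he he'
      rw [mem_filter] at he he'
      exact hd _ _ ⟨he.2, he'.2⟩
    have hsub : (univ.filter (fun e : V × V => A1 e.1 e.2)) ∪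
        (univ.filter (fun e : V × V => A2 e.1 e.2)) ⊆ univ.filter (fun e : V × V => A e.1 e.2) := by
      intro e he
      rw [mem_union, mem_filter, mem_filter] at he
      rw [mem_filter]
      rcases he with he | he
      · exact ⟨mem_univ _, h1 _ _ he.2⟩
      · exact ⟨mem_univ _, h2 _ _ he.2⟩
    have h3 := card_le_card hsub
    rw [card_union_of_disjoint hdis] at h3
    omega
  have hg : (univ.image (fun v => (v, f v))) = univ.filter (fun e : V × V => A2 e.1 e.2) := by
    apply Finset.eq_of_subset_of_card_le
    · intro e he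
      rw [mem_image] at he
      obtain ⟨v, -, rfl⟩ := he
      exact mem_filter.2 ⟨mem_univ _, hf v⟩
    · rw [card_image_of_injective _ (fun a b h => congrArg Prod.fst h), card_univ]
      exact c2
  have hiff : ∀ u v, A2 u v ↔ f u = v := by
    intro u v
    constructor
    · intro h
      have : (u, v) ∈ univ.image (fun v => (v, f v)) := by
        rw [hg]
        exact mem_filter.2 ⟨mem_univ _, h⟩
      rw [mem_image] at this
      obtain ⟨z, -, hz⟩ := this
      simp only [Prod.mk.injEq] at hz
      rw [← hz.1]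
      exact hz.2
    · rintro rfl
      exact hf u
  refine ⟨f, ?_, hiff⟩
  refine (Finite.injective_iff_bijective).1 (Finite.injective_iff_surjective.2 fun v => ?_)
  obtain ⟨y, hy⟩ := hin v
  exact ⟨y, (hiff _ _).1 hy⟩

/-- positions on the lines -/
abbrev Ps (n m : ℕ) : Type := (Fin n × Bool × Fin (m + 1)) ⊕ (Fin m × Fin 3)

/-- the vertices -/
inductive Nd (n m : ℕ) : Type
  | s : Nd n m
  | w : Nd n m
  | t : Nd n m
  | a (i : Fin (n + 1)) : Nd n m
  | q (x : Ps n m) (c : Bool) : Nd n m
  deriving DecidableEq, Fintype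

variable {n m : ℕ}

/-- next position in the block -/
def sg : Ps n m → Ps n m
  | .inl (i, b, j) => .inl (i, !b, j)
  | .inr (j, p) => .inr (j, p + 1)

/-- previous position in the block -/
def sr : Ps n m → Ps n m
  | .inl (i, b, j) => .inl (i, !b, j)
  | .inr (j, p) => .inr (j, p + 2)

theorem sg_sr (x : Ps n m) : sg (sr x) = x := by
  rcases x with ⟨i, b, j⟩ | ⟨j, p⟩
  · simp [sg, sr]
  · simp only [sg, sr, Sum.inr.injEq, Prod.mk.injEq, true_and]
    revert p; decide

theorem sr_sg (x : Ps n m) : sr (sg x) = x := by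
  rcases x with ⟨i, b, j⟩ | ⟨j, p⟩
  · simp [sg, sr]
  · simp only [sg, sr, Sum.inr.injEq, Prod.mk.injEq, true_and]
    revert p; decide

theorem sg_ne (x : Ps n m) : sg x ≠ x := by
  rcases x with ⟨i, b, j⟩ | ⟨j, p⟩
  · simp [sg]
  · simp only [sg, ne_eq, Sum.inr.injEq, Prod.mk.injEq, true_and]
    revert p; decide

/-- where a literal occurs in a clause -/
def occ (lit : Fin m → Fin 3 → Bool × Fin n) (j : Fin m) (l : Bool × Fin n) : Option (Fin 3) :=
  if lit j 0 = l then some 0 else if lit j 1 = l then some 1 else if lit j 2 = l then some 2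
  else none

theorem occ_some {lit : Fin m → Fin 3 → Bool × Fin n} {j : Fin m} {l : Bool × Fin n} {p : Fin 3}
    (h : occ lit j l = some p) : lit j p = l := by
  unfold occ at h
  split_ifs at h with h0 h1 h2 <;> simp only [Option.some.injEq] at h <;> subst h <;> assumption

theorem occ_lit {lit : Fin m → Fin 3 → Bool × Fin n} (hinj : ∀ j p p', lit j p = lit j p' → p = p')
    (j : Fin m) (p : Fin 3) : occ lit j (lit j p) = some p := by
  unfold occ
  split_ifs with h0 h1 h2
  · rw [hinj _ _ _ h0]
  · rw [hinj _ _ _ h1]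
  · rw [hinj _ _ _ h2]
  · exfalso
    fin_cases p
    · exact h0 rfl
    · exact h1 rfl
    · exact h2 rfl

/-- the vertex after a position on its line -/
def nxt (lit : Fin m → Fin 3 → Bool × Fin n) : Ps n m → Nd n m
  | .inl (i, b, j) =>
    if h : (j : ℕ) < m then
      match occ lit ⟨j, h⟩ (b, i) with
      | some p => .q (.inr (⟨j, h⟩, p)) false
      | none => .q (.inl (i, b, ⟨j + 1, by omega⟩)) false
    else .a i.succ
  | .inr (j, p) => .q (.inl ((lit j p).2, (lit j p).1, j.succ)) false

/-- the out-neighbours of the vertices other than `s` -/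
def outL (lit : Fin m → Fin 3 → Bool × Fin n) : Nd n m → List (Nd n m)
  | .s => []
  | .w => [.t, .a 0]
  | .t => [.s, .w, .a 0, .a (Fin.last n)]
  | .a i => if h : (i : ℕ) < n then [.q (.inl (⟨i, h⟩, true, 0)) false,
      .q (.inl (⟨i, h⟩, false, 0)) false] else [.s, .a 0]
  | .q x false => [.q x true, .q (sg x) false]
  | .q x true => [.q (sr x) true, nxt lit x]

/-- the arcs -/
def Dr (lit : Fin m → Fin 3 → Bool × Fin n) (u v : Nd n m) : Prop :=
  if u = .s then v ≠ .s else v ∈ outL lit u

instance (lit : Fin m → Fin 3 → Bool × Fin n) : DecidableRel (Dr lit) := fun u v => by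
  unfold Dr; infer_instance

theorem outL_length (lit : Fin m → Fin 3 → Bool × Fin n) (u : Nd n m) :
    (outL lit u).length ≤ if u = .t then 4 else 2 := by
  cases u with
  | s => simp [outL]
  | w => simp [outL]
  | t => simp [outL]
  | a i =>
    rw [if_neg (by simp)]
    by_cases h : (i : ℕ) < n
    · simp only [outL, dif_pos h]; simp
    · simp only [outL, dif_neg h]; simp
  | q x c => cases c <;> simp [outL]

theorem card_arcs (lit : Fin m → Fin 3 → Bool × Fin n) :
    (univ.filter (fun e : Nd n m × Nd n m => Dr lit e.1 e.2)).card + 1 ≤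
      3 * Fintype.card (Nd n m) := by
  classical
  have h1 : (univ.filter (fun e : Nd n m × Nd n m => Dr lit e.1 e.2)).card =
      ∑ u : Nd n m, (univ.filter (fun v => Dr lit u v)).card := by
    rw [Finset.card_eq_sum_card_fiberwise (f := Prod.fst) (t := univ) (fun _ _ => mem_univ _)]
    refine sum_congr rfl fun u _ => ?_
    have : ((univ.filter (fun e : Nd n m × Nd n m => Dr lit e.1 e.2)).filter
        (fun e => e.1 = u)) = (univ.filter (fun v => Dr lit u v)).image (fun v => (u, v)) := by
      ext ⟨a, b⟩
      simp only [mem_filter, mem_univ, true_and, mem_image, Prod.mk.injEq]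
      constructor
      · rintro ⟨h, rfl⟩
        exact ⟨b, h, rfl, rfl⟩
      · rintro ⟨v, h, rfl, rfl⟩
        exact ⟨h, rfl⟩
    rw [this, card_image_of_injective _ (fun a b h => (Prod.mk.inj h).2)]
  have h2 : ∀ u : Nd n m, (univ.filter (fun v => Dr lit u v)).card + (if u = .s then 1 else 0) ≤
      (if u = .s then Fintype.card (Nd n m) else 0) + (if u = .t then 4 else 0) +
      (if u ≠ .s ∧ u ≠ .t then 2 else 0) := by
    intro u
    by_cases hu : u = .s
    · subst hu
      have : (univ.filter (fun v => Dr lit (.s : Nd n m) v)) = univ.erase .s := by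
        ext v
        simp [Dr]
      rw [this, card_erase_of_mem (mem_univ _), card_univ]
      have := Fintype.card_pos_iff.2 (⟨.s⟩ : Nonempty (Nd n m))
      simp
      omega
    · have h3 : (univ.filter (fun v => Dr lit u v)) ⊆ (outL lit u).toFinset := by
        intro v hv
        rw [mem_filter] at hv
        have := hv.2
        unfold Dr at this
        rw [if_neg hu] at this
        simpa using this
      have h4 := (card_le_card h3).trans (List.toFinset_card_le _)
      have h5 := outL_length lit u
      by_cases ht : u = .t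
      · subst ht
        simp at h4 h5 ⊢
        omega
      · rw [if_neg ht] at h5
        simp [hu, ht]
        omega
  have h3 := Finset.sum_le_sum (fun u (_ : u ∈ (univ : Finset (Nd n m))) => h2 u)
  rw [Finset.sum_add_distrib, Finset.sum_add_distrib, Finset.sum_add_distrib, ← h1] at h3
  have h4 : ∑ u : Nd n m, (if u = .s then 1 else 0) = 1 := by simp
  have h5 : ∑ u : Nd n m, (if u = .s then Fintype.card (Nd n m) else 0) =
      Fintype.card (Nd n m) := by simp
  have h6 : ∑ u : Nd n m, (if u = .t then 4 else 0) = 4 := by simp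
  have h7 : ∑ u : Nd n m, (if u ≠ .s ∧ u ≠ .t then 2 else 0) + 4 = 2 * Fintype.card (Nd n m) := by
    have h8 : ∑ u : Nd n m, (if u ≠ .s ∧ u ≠ .t then 2 else 0) +
        (∑ u : Nd n m, (if u = .s then 2 else 0) + ∑ u : Nd n m, (if u = .t then 2 else 0)) =
        ∑ u : Nd n m, 2 := by
      rw [← Finset.sum_add_distrib, ← Finset.sum_add_distrib]
      refine sum_congr rfl fun u _ => ?_
      cases u <;> simp
    simp only [sum_ite_eq', mem_univ, if_true, sum_const, card_univ, smul_eq_mul] at h8
    omega
  omega

end Pool.Agent.K1H71.AS
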